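import Pool.Agent.X69.Ric.PackP
import Pool.Agent.W182.PW.Lin

set_option autoImplicit false

/-!
# Systems of linear forms at prime arguments
-/

namespace Pool.Agent.Helper269

open Polynomial
open Pool.Agent.X69.Ric
open Pool.Agent.W182.PW (lin lin_eval lin_irr lin_deg lin_lead lin_inj lin_ne_X)

/-- linear forms `a i n + b i` at prime arguments -/
theorem psys_lin {g : ℕ} (a b : Fin g → ℕ) (ha : ∀ i, 0 < a i) (hab : ∀ i, Nat.Coprime (a i) (b i))
    (hinj : ∀ i j, a i = a j → b i = b j → i = j) (hX : ∀ i, ¬ (a i = 1 ∧ b i = 0))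
    (hadm : ∀ p : ℕ, p.Prime → ∃ m : ℕ, ¬ p ∣ m ∧ ∀ i, ¬ p ∣ a i * m + b i) :
    PSys (fun i => lin (a i) (b i : ℤ)) (fun n i => a i * n + b i) where
  irr := fun i => lin_irr _ _ (ha i) (Nat.isCoprime_iff_coprime.2 (hab i))
  deg := fun i => lin_deg _ _ (ha i)
  lead := fun i => lin_lead _ _ (ha i)
  inj := fun i j h => hinj i j (lin_inj h).1 (by exact_mod_cast (lin_inj h).2)
  neX := fun i => lin_ne_X (fun h => hX i ⟨h.1, by exact_mod_cast h.2⟩)
  adm := fun p hp => by
    obtain ⟨m, h1, h2⟩ := hadm p hp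
    refine ⟨m, h1, fun i h => h2 i ?_⟩
    rw [lin_eval] at h
    exact_mod_cast h
  val := fun n _ i => by
    rw [lin_eval]
    push_cast
    ring

end Pool.Agent.Helper269
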