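import Pool.Agent.Helper269.PriS

set_option autoImplicit false

/-!
# Primes `n` with all `a_i ± n` prime, for almost all vectors `a`
-/

namespace Pool.Agent.Helper269

open Filter Finset Polynomial
open Pool.Agent.X26.GP (NF)
open Pool.Agent.X69.Ric (prR)

/-- the relation of the forms `n` and `σ i n + a i` -/
def RL {s : ℕ} (σ : Fin s → ℤ) (a : Fin s → ℕ) (q n : ℕ) : Prop := q ∣ n ∨ ∃ i, (q : ℤ) ∣ σ i * n + a i

theorem RL_per {s : ℕ} (σ : Fin s → ℤ) (a : Fin s → ℕ) (q n : ℕ) : RL σ a q (n + q) ↔ RL σ a q n := by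
  unfold RL
  apply or_congr
  · exact (Nat.dvd_add_left (dvd_refl q))
  · apply exists_congr
    intro i
    have e : σ i * ((n + q : ℕ) : ℤ) + a i = (σ i * n + a i) + σ i * q := by
      push_cast
      ring
    rw [e]
    exact dvd_add_left (dvd_mul_left (q : ℤ) (σ i))

theorem nuR_shift (R : ℕ → ℕ → Prop) (q t : ℕ) (hR : ∀ n, R q (n + q) ↔ R q n) :
    nuR (fun q n => R q (n + t)) q = nuR R q := by
  classical
  have hper : Function.Periodic (fun n => R q n) q := fun n => propext (hR n)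
  have h1 : nuR R q = ((Ico 1 (1 + q)).filter (fun n => R q n)).card := by
    unfold nuR
    rw [← Set.ncard_coe_finset]
    congr 1
    ext u
    rw [Finset.mem_coe, mem_filter, mem_Ico, Set.mem_ofPred_eq]
    constructor
    · rintro ⟨h1, h2, h3⟩
      exact ⟨⟨h1, by omega⟩, h3⟩
    · rintro ⟨⟨h1, h2⟩, h3⟩
      exact ⟨h1, by omega, h3⟩
  have h2 : nuR (fun q n => R q (n + t)) q = ((Ico (1 + t) (1 + t + q)).filter (fun n => R q n)).card := by
    unfold nuR
    rw [← Set.ncard_coe_finset]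
    refine Set.ncard_congr (fun u _ => u + t) ?_ ?_ ?_
    · rintro u ⟨h1, h2, h3⟩
      rw [Finset.mem_coe, mem_filter, mem_Ico]
      exact ⟨⟨by omega, by omega⟩, h3⟩
    · intro u v _ _ h
      have h' : u + t = v + t := h
      omega
    · intro v hv
      rw [Finset.mem_coe, mem_filter, mem_Ico] at hv
      obtain ⟨⟨h1, h2⟩, h3⟩ := hv
      refine ⟨v - t, ⟨by omega, by omega, ?_⟩, by omega⟩
      have e : v - t + t = v := by omega
      show R q (v - t + t)
      rw [e]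
      exact h3
  rw [h1, h2, Nat.filter_Ico_card_eq_of_periodic _ _ _ hper, Nat.filter_Ico_card_eq_of_periodic _ _ _ hper]

theorem prR_anti (w : ℕ → ℕ) (hw : ∀ q, w q ≤ q) {x X : ℕ} (h : x ≤ X) : prR w X ≤ prR w x ∧ 0 ≤ prR w X := by
  have h0 : ∀ q ∈ (Icc 1 X).filter Nat.Prime, 0 ≤ 1 - (w q : ℝ) / q := by
    intro q hq
    have hq0 : (0 : ℝ) < q := by exact_mod_cast (mem_filter.1 hq).2.pos
    rw [sub_nonneg, div_le_one hq0]
    exact_mod_cast hw q
  have hsub : (Icc 1 x).filter Nat.Prime ⊆ (Icc 1 X).filter Nat.Prime := by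
    intro q hq
    rw [mem_filter, mem_Icc] at hq ⊢
    exact ⟨⟨hq.1.1, hq.1.2.trans h⟩, hq.2⟩
  unfold prR
  refine ⟨?_, prod_nonneg h0⟩
  rw [← prod_sdiff hsub]
  refine mul_le_of_le_one_left (prod_nonneg fun q hq => h0 q (hsub hq)) ?_
  apply Finset.prod_le_one
  · intro q hq
    exact h0 q (mem_sdiff.1 hq).1
  · intro q _
    have : (0 : ℝ) ≤ (w q : ℝ) / q := by positivity
    linarith

theorem nuR_le (R : ℕ → ℕ → Prop) (q : ℕ) : nuR R q ≤ q := by
  unfold nuR
  calc {u : ℕ | 1 ≤ u ∧ u ≤ q ∧ R q u}.ncard ≤ ((Icc 1 q : Finset ℕ) : Set ℕ).ncard := by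
        apply Set.ncard_le_ncard _ (Finset.finite_toSet _)
        rintro u ⟨h1, h2, _⟩
        rw [Finset.mem_coe, mem_Icc]
        exact ⟨h1, h2⟩
    _ = q := by rw [Set.ncard_coe_finset, Nat.card_Icc, Nat.add_sub_cancel]

/-- the shifted vector -/
def kk {s : ℕ} (σ : Fin s → ℤ) (a : Fin s → ℕ) (t : ℕ) : Fin (s + 1) → ℕ :=
  Fin.cons t (fun i => (σ i * (t : ℤ) + a i).toNat)

theorem ex_set {α : Type} (B : Finset α) (P : α → Prop) : ∃ Ex : Finset α, ∀ a, a ∈ Ex ↔ a ∈ B ∧ P a := by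
  classical
  exact ⟨B.filter P, fun a => by rw [mem_filter]⟩

/-- **Almost all vectors.** -/
theorem lin_all {s : ℕ} (σ : Fin s → ℤ) (hσ : ∀ i, σ i = 1 ∨ σ i = -1) : ∃ δ : ℝ, 0 < δ ∧
    ∀ C U : ℕ, 1 ≤ C → ∃ X₀ : ℕ, ∀ X : ℕ, X₀ ≤ X →
      ∃ Ex : Finset (Fin s → ℕ), (Ex.card : ℝ) ≤ (X : ℝ) ^ s / Real.log X ^ U ∧
        ∀ a : Fin s → ℕ, (∀ i, a i ≤ C * X) → a ∉ Ex →
          (∀ n : ℕ, 1 ≤ n → n ≤ X → ∀ i, 1 ≤ σ i * (n : ℤ) + a i) →
          (∀ q : ℕ, q.Prime → ∃ n : ℕ, ¬ RL σ a q n) →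
          δ * (X * prR (nuR (RL σ a)) X) ≤
            ({n : ℕ | n.Prime ∧ n ≤ X ∧ (X : ℝ) ^ (1 / 4 : ℝ) < n ∧ ∀ i, (σ i * (n : ℤ) + a i).toNat.Prime ∧
              (X : ℝ) ^ (1 / 4 : ℝ) < ((σ i * (n : ℤ) + a i : ℤ) : ℝ)}.ncard : ℝ) := by
  classical
  obtain ⟨σ', hσ'⟩ : ∃ σ' : Fin (s + 1) → ℤ, σ' = Fin.cons 1 σ := ⟨_, rfl⟩
  have hσ'0 : σ' 0 = 1 := by rw [hσ']; rfl
  have hσ's : ∀ i : Fin s, σ' i.succ = σ i := by intro i; rw [hσ']; rfl
  obtain ⟨δ, hδ, h⟩ := pri_sgn (fun _ : Fin (s + 1) => (X : ℤ[X])) (fun _ => by rw [natDegree_X])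
    (fun _ => by rw [leadingCoeff_X]; exact one_pos) σ' (fun i => by
      refine Fin.cases ?_ (fun j => ?_) i
      · exact Or.inl hσ'0
      · rw [hσ's]; exact hσ j)
  refine ⟨δ / 3, by positivity, fun C U hC => ?_⟩
  obtain ⟨N, hN⟩ := h (4 * C) (by omega) (U + 1)
  obtain ⟨L0, hL0⟩ := Pool.Agent.Y843.HS.log_ge ((2 * C : ℝ) ^ s * 2 ^ (U + 1))
  refine ⟨max (max (2 * N + 2) L0) 81, fun X hX => ?_⟩
  have hXN : 2 * N + 2 ≤ X := (le_max_left _ _).trans ((le_max_left _ _).trans hX)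
  have hXL : L0 ≤ X := (le_max_right _ _).trans ((le_max_left _ _).trans hX)
  have hX81 : 81 ≤ X := (le_max_right _ _).trans hX
  obtain ⟨x, hx⟩ : ∃ x : ℕ, x = X / 2 := ⟨_, rfl⟩
  have hx3 : X ≤ 3 * x := by omega
  have hx2 : 2 * x ≤ X := by omega
  have hx1 : 1 ≤ x := by omega
  have hX0 : (0 : ℝ) < X := by exact_mod_cast (by omega : 0 < X)
  have hx0 : (0 : ℝ) < x := by exact_mod_cast hx1
  have hlX : 0 < Real.log X := Real.log_pos (by exact_mod_cast (by omega : 1 < X))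
  have hlx : Real.log X / 2 ≤ Real.log x := by
    have h1 : (X : ℝ) ≤ (x : ℝ) ^ 2 := by
      have h2 : 9 ≤ x := by omega
      have h3 : 3 * x ≤ x ^ 2 := by nlinarith
      exact_mod_cast hx3.trans h3
    have h2 := Real.log_le_log hX0 h1
    rw [Real.log_pow] at h2
    push_cast at h2
    linarith
  have hlx0 : 0 < Real.log x := lt_of_lt_of_le (by positivity) hlx
  obtain ⟨A, hA⟩ : ∃ A : Fin (s + 1) → ℕ, A = Fin.cons x (fun _ => 4 * C * x) := ⟨_, rfl⟩
  have hA0 : A 0 = x := by rw [hA]; rfl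
  have hAs : ∀ j : Fin s, A j.succ = 4 * C * x := by intro j; rw [hA]; rfl
  obtain ⟨E, hE, h3⟩ := hN x (by omega) A (by
    intro i
    rw [natDegree_X, pow_one]
    refine Fin.cases ?_ (fun j => ?_) i
    · rw [hA0]
      constructor <;> nlinarith
    · rw [hAs]
      constructor
      · exact le_rfl
      · nlinarith [Nat.mul_le_mul hC hC])
  -- the exceptional set
  obtain ⟨P, hP⟩ : ∃ P : (Fin s → ℕ) → Prop, P = fun a => ∀ n : ℕ, 1 ≤ n → n ≤ X → ∀ i, 1 ≤ σ i * (n : ℤ) + a i :=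
    ⟨_, rfl⟩
  obtain ⟨Ex, hEx⟩ := ex_set (Fintype.piFinset (fun _ : Fin s => range (C * X + 1)))
    (fun a => P a ∧ ∀ t ∈ Icc 1 x, kk σ a t ∈ E)
  have hcard : Ex.card * x ≤ E.card := by
    have h1 : (Ex ×ˢ Icc 1 x).card ≤ E.card := by
      apply card_le_card_of_injOn (fun q : (Fin s → ℕ) × ℕ => kk σ q.1 q.2)
      · intro q hq
        rw [mem_coe, mem_product, hEx] at hq
        exact hq.1.2.2 q.2 hq.2
      · intro q hq q' hq' he
        rw [mem_coe, mem_product, hEx, mem_Icc] at hq hq'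
        have e0 : q.2 = q'.2 := congrFun he 0
        have ej : ∀ j : Fin s, (σ j * (q.2 : ℤ) + q.1 j).toNat = (σ j * (q'.2 : ℤ) + q'.1 j).toNat :=
          fun j => congrFun he j.succ
        refine Prod.ext ?_ e0
        funext j
        have g4 := ej j
        have p1 := hq.1.2.1
        have p2 := hq'.1.2.1
        rw [hP] at p1 p2
        have p3 := p1 q.2 hq.2.1 (by omega) j
        have p4 := p2 q'.2 hq'.2.1 (by omega) j
        rw [e0] at g4 p3
        omega
    rwa [card_product, Nat.card_Icc, Nat.add_sub_cancel] at h1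
  refine ⟨Ex, ?_, fun a ha haE hpos hadm => ?_⟩
  · have h1 : (Ex.card : ℝ) * x ≤ (x * (4 * C * x : ℝ) ^ s) / Real.log x ^ (U + 1) := by
      calc (Ex.card : ℝ) * x ≤ E.card := by exact_mod_cast hcard
        _ ≤ _ := hE
        _ = _ := by
          rw [Fin.prod_univ_succ, hA0]
          simp only [hAs, prod_const, card_univ, Fintype.card_fin]
          push_cast
          ring
    have h2 : (Ex.card : ℝ) ≤ (4 * C * x : ℝ) ^ s / Real.log x ^ (U + 1) := by
      rw [mul_div_assoc, mul_comm (x : ℝ)] at h1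
      exact le_of_mul_le_mul_right h1 hx0
    refine h2.trans ?_
    have hx2' : (2 : ℝ) * x ≤ X := by exact_mod_cast hx2
    have h5 : (4 * C * x : ℝ) ^ s ≤ (2 * C : ℝ) ^ s * X ^ s := by
      rw [← mul_pow]
      apply pow_le_pow_left₀ (by positivity)
      have hC0 : (0 : ℝ) ≤ C := Nat.cast_nonneg _
      nlinarith
    have h6 : (Real.log X / 2) ^ (U + 1) ≤ Real.log x ^ (U + 1) := pow_le_pow_left₀ (by positivity) hlx _
    have h7 := hL0 X hXL
    calc (4 * C * x : ℝ) ^ s / Real.log x ^ (U + 1) ≤ ((2 * C : ℝ) ^ s * X ^ s) / (Real.log X / 2) ^ (U + 1) :=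
          div_le_div₀ (by positivity) h5 (by positivity) h6
      _ = (X : ℝ) ^ s * ((2 * C : ℝ) ^ s * 2 ^ (U + 1)) / (Real.log X ^ U * Real.log X) := by
          rw [div_pow, pow_succ (Real.log (X : ℝ)) U]
          field_simp
      _ ≤ (X : ℝ) ^ s * Real.log X / (Real.log X ^ U * Real.log X) := by
          apply div_le_div_of_nonneg_right _ (by positivity)
          exact mul_le_mul_of_nonneg_left h7 (by positivity)
      _ = _ := by field_simp
  · -- a good shift
    have h1 : ∃ t ∈ Icc 1 x, kk σ a t ∉ E := by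
      by_contra hcon
      push Not at hcon
      apply haE
      rw [hEx, hP]
      refine ⟨Fintype.mem_piFinset.2 fun i => mem_range.2 (Nat.lt_succ_of_le (ha i)), hpos, hcon⟩
    obtain ⟨t, ht, htE⟩ := h1
    rw [mem_Icc] at ht
    have hk0 : kk σ a t 0 = t := rfl
    have hks : ∀ j : Fin s, ((kk σ a t j.succ : ℕ) : ℤ) = σ j * (t : ℤ) + a j := by
      intro j
      have h4 := hpos t ht.1 (by omega) j
      show (((σ j * (t : ℤ) + a j).toNat : ℕ) : ℤ) = _
      omega
    have hs1 : ∀ j, |σ j| = 1 := by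
      intro j
      rcases hσ j with h4 | h4 <;> rw [h4] <;> rfl
    have hval0 : ∀ n : ℕ, σ' 0 * (Polynomial.X : ℤ[X]).eval (n : ℤ) + (kk σ a t 0 : ℕ) = ((n + t : ℕ) : ℤ) := by
      intro n
      rw [hσ'0, hk0, eval_X]
      push_cast
      ring
    have hvals : ∀ (n : ℕ) (j : Fin s), σ' j.succ * (Polynomial.X : ℤ[X]).eval (n : ℤ) + (kk σ a t j.succ : ℕ) =
        σ j * ((n + t : ℕ) : ℤ) + a j := by
      intro n j
      rw [hσ's, hks, eval_X]
      push_cast
      ring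
    have h4 := h3 (kk σ a t) (by
      intro i
      refine Fin.cases ?_ (fun j => ?_) i
      · rw [hk0, hA0]
        exact ht
      · rw [hAs]
        have h5 := hks j
        have h6 := hpos t ht.1 (by omega) j
        have h7 := ha j
        have h8 : σ j * (t : ℤ) ≤ t := by
          rcases hσ j with h9 | h9 <;> rw [h9] <;> omega
        have h9 : C * X ≤ C * (3 * x) := Nat.mul_le_mul_left C hx3
        have h10 : x ≤ C * x := Nat.le_mul_of_pos_left x (by omega)
        have h11 : C * (3 * x) + C * x = 4 * C * x := by ring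
        constructor
        · omega
        · omega) htE (by
      intro n hn1 hn2 i
      refine Fin.cases ?_ (fun j => ?_) i
      · rw [hval0]
        exact_mod_cast (by omega : 1 ≤ n + t)
      · rw [hvals]
        exact hpos (n + t) (by omega) (by omega) j) (by
      intro q hq
      obtain ⟨m, hm⟩ := hadm q hq
      refine ⟨(m : ℤ) - t, fun hd => hm ?_⟩
      rw [eval_prod, (Nat.prime_iff_prime_int.1 hq).dvd_finsetProd_iff] at hd
      obtain ⟨i, -, hi⟩ := hd
      revert hi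
      refine Fin.cases ?_ (fun j => ?_) i
      · intro hi
        rw [eval_add, eval_mul, eval_C, eval_C, eval_X, hσ'0, hk0] at hi
        left
        have e : (1 : ℤ) * ((m : ℤ) - t) + (t : ℕ) = (m : ℤ) := by ring
        rw [e] at hi
        exact Int.natCast_dvd_natCast.1 hi
      · intro hi
        rw [eval_add, eval_mul, eval_C, eval_C, eval_X, hσ's, hks] at hi
        right
        refine ⟨j, ?_⟩
        have e : σ j * ((m : ℤ) - t) + (σ j * (t : ℤ) + a j) = σ j * m + a j := by ring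
        rwa [e] at hi)
    -- the products
    have hRk : (fun q n : ℕ => ∃ i, (q : ℤ) ∣ σ' i * (Polynomial.X : ℤ[X]).eval (n : ℤ) + (kk σ a t i : ℕ)) =
        (fun q n => RL σ a q (n + t)) := by
      funext q n
      rw [eq_iff_iff]
      constructor
      · rintro ⟨i, hi⟩
        revert hi
        refine Fin.cases ?_ (fun j => ?_) i
        · intro hi
          rw [hval0] at hi
          exact Or.inl (Int.natCast_dvd_natCast.1 hi)
        · intro hi
          rw [hvals] at hi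
          exact Or.inr ⟨j, hi⟩
      · rintro (hi | ⟨j, hi⟩)
        · exact ⟨0, by rw [hval0]; exact Int.natCast_dvd_natCast.2 hi⟩
        · exact ⟨j.succ, by rw [hvals]; exact hi⟩
    rw [hRk] at h4
    have hpr : prR (nuR (fun q n => RL σ a q (n + t))) x = prR (nuR (RL σ a)) x := by
      unfold prR
      apply prod_congr rfl
      intro q _
      rw [nuR_shift (RL σ a) q t (RL_per σ a q)]
    rw [hpr] at h4
    obtain ⟨g1, g2⟩ := prR_anti (nuR (RL σ a)) (nuR_le _) (show x ≤ X by omega)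
    have hx3' : (X : ℝ) ≤ 3 * x := by exact_mod_cast hx3
    have h5 : δ / 3 * (X * prR (nuR (RL σ a)) X) ≤ δ * (x * prR (nuR (RL σ a)) x) := by
      calc δ / 3 * (X * prR (nuR (RL σ a)) X) ≤ δ / 3 * ((3 * x) * prR (nuR (RL σ a)) x) := by
            apply mul_le_mul_of_nonneg_left _ (by positivity)
            exact mul_le_mul hx3' g1 g2 (by positivity)
        _ = _ := by ring
    refine h5.trans (h4.trans (Nat.cast_le.2 ?_))
    have hroot : (X : ℝ) ^ (1 / 4 : ℝ) ≤ (x : ℝ) ^ (1 / 3 : ℝ) := by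
      have h6 : (3 : ℝ) ≤ (X : ℝ) ^ (1 / 4 : ℝ) := by
        have h7 : ((81 : ℝ)) ^ (1 / 4 : ℝ) = 3 := by
          rw [show (81 : ℝ) = 3 ^ (4 : ℝ) by norm_num, ← Real.rpow_mul (by norm_num)]
          norm_num
        rw [← h7]
        exact Real.rpow_le_rpow (by norm_num) (by exact_mod_cast hX81) (by norm_num)
      have h8 : (X : ℝ) ^ (3 / 4 : ℝ) ≤ x := by
        have h9 : (X : ℝ) ^ (3 / 4 : ℝ) * (X : ℝ) ^ (1 / 4 : ℝ) = X := by
          rw [← Real.rpow_add hX0]
          norm_num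
        have h10 : (0 : ℝ) < (X : ℝ) ^ (3 / 4 : ℝ) := Real.rpow_pos_of_pos hX0 _
        nlinarith
      calc (X : ℝ) ^ (1 / 4 : ℝ) = ((X : ℝ) ^ (3 / 4 : ℝ)) ^ (1 / 3 : ℝ) := by
            rw [← Real.rpow_mul hX0.le]
            norm_num
        _ ≤ (x : ℝ) ^ (1 / 3 : ℝ) := Real.rpow_le_rpow (by positivity) h8 (by norm_num)
    refine Set.ncard_le_ncard_of_injOn (fun n => n + t) ?_ (fun n _ n' _ h => by
      have h' : n + t = n' + t := h
      omega) ((Set.finite_Iic X).subset fun n hn => hn.2.1)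
    rintro n ⟨⟨h6, h7⟩, h8⟩
    have h9 := h8 0
    rw [hval0, Int.toNat_natCast] at h9
    refine ⟨h9.1, by show n + t ≤ X; omega, ?_, fun i => ?_⟩
    · refine lt_of_le_of_lt hroot ?_
      have := h9.2
      push_cast at this ⊢
      exact this
    · have h10 := h8 i.succ
      rw [hvals] at h10
      exact ⟨h10.1, lt_of_le_of_lt hroot h10.2⟩

end Pool.Agent.Helper269
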