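import Pool.Agent.Helper269.Uni
import Pool.Agent.Y843.AQ.Sg
import Pool.Agent.Y843.HS.CorC

set_option autoImplicit false

/-!
# Lower bounds for the number of simultaneous prime values of almost all systems `F_i(n) + k_i`
-/

namespace Pool.Agent.Helper269

open Filter Finset Polynomial
open Pool.Agent.X26.GP (Zf NF PX PX_eq Zf_lt Zf_card_le Zf_card_lt)
open Pool.Agent.Y843.HS (VV Pr Sv EE EE_log VV_ge VV_split)
open Pool.Agent.X69.Ric (prR PX_prR)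

/-- a lower bound for the product over the primes -/
theorem PX_low (r : ℕ) : ∃ c : ℝ, 0 < c ∧ ∃ X₀ : ℕ, ∀ X : ℕ, X₀ ≤ X → ∀ f : ℤ[X], f.natDegree ≤ r → NF f →
    c / Real.log X ^ (2 * r) ≤ VV (Zf f) 0 X := by
  obtain ⟨cE, hcE, hE⟩ := EE_log
  obtain ⟨a, ha⟩ : ∃ a : ℕ, a = max (2 * r) 3 := ⟨_, rfl⟩
  obtain ⟨c0, hc0⟩ : ∃ c0 : ℝ, c0 = ∏ p ∈ Pr 0 a, (1 / (p : ℝ)) := ⟨_, rfl⟩
  have hc0' : 0 < c0 := by
    rw [hc0]
    apply prod_pos
    intro p hp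
    have hp1 : p.Prime := (mem_filter.1 hp).2
    have : (0 : ℝ) < p := by exact_mod_cast hp1.pos
    positivity
  refine ⟨c0 / cE ^ (2 * r), by positivity, a, fun X hX f hfr hf => ?_⟩
  have hX3 : 3 ≤ X := by omega
  have hlX : 0 < Real.log X := Real.log_pos (by exact_mod_cast (by omega : 1 < X))
  have h1 : c0 ≤ VV (Zf f) 0 a := by
    rw [hc0]
    unfold VV
    apply Finset.prod_le_prod
    · intro p hp
      positivity
    · intro p hp
      have hp1 : p.Prime := (mem_filter.1 hp).2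
      have hp0 : (0 : ℝ) < p := by exact_mod_cast hp1.pos
      have h2 : ((Zf f p).card : ℝ) + 1 ≤ p := by exact_mod_cast Zf_card_lt hf hp1
      rw [le_sub_iff_add_le, ← add_div, div_le_one hp0]
      linarith
  have h2 : 1 / EE a X ^ (2 * r) ≤ VV (Zf f) a X := by
    apply VV_ge (by omega)
    intro p hp
    have hp1 : p.Prime := (mem_filter.1 hp).2
    exact ⟨(Zf_card_le hf hp1).trans hfr, Zf_lt f p⟩
  have h3 := hE a X (by omega) hX
  have hE0 : 0 < EE a X := lt_of_lt_of_le one_pos (Pool.Agent.Y843.HS.one_le_EE a X)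
  have h4 : 1 / (cE * Real.log X) ^ (2 * r) ≤ 1 / EE a X ^ (2 * r) :=
    one_div_le_one_div_of_le (by positivity) (pow_le_pow_left₀ hE0.le h3 _)
  rw [← VV_split (Zf f) (Nat.zero_le a) hX]
  calc c0 / cE ^ (2 * r) / Real.log X ^ (2 * r) = c0 * (1 / (cE * Real.log X) ^ (2 * r)) := by
        rw [mul_pow]
        field_simp
    _ ≤ VV (Zf f) 0 a * VV (Zf f) a X := mul_le_mul h1 (h4.trans h2) (by positivity) (hc0'.le.trans h1)

/-- **Prime values of almost all systems**. -/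
theorem pri_plus {r : ℕ} (F : Fin r → ℤ[X]) (hd : ∀ i, 1 ≤ (F i).natDegree) (hl : ∀ i, 0 < (F i).leadingCoeff)
    (hF : ∀ i, ∀ n : ℕ, 1 ≤ n → (n : ℤ) ≤ (F i).eval (n : ℤ)) :
    ∃ δ : ℝ, 0 < δ ∧ ∀ B : ℕ, 1 ≤ B → ∀ U : ℕ, ∃ N0 : ℕ, ∀ x : ℕ, N0 ≤ x → ∀ A : Fin r → ℕ,
      (∀ i, A i ≤ B * x ^ (F i).natDegree ∧ x ^ (F i).natDegree ≤ B * A i) →
      ∃ E : Finset (Fin r → ℕ), (E.card : ℝ) ≤ (∏ i, (A i : ℝ)) / Real.log x ^ U ∧
        ∀ k : Fin r → ℕ, (∀ i, 1 ≤ k i ∧ k i ≤ A i) → k ∉ E →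
        NF (∏ i, (F i + C (k i : ℤ))) →
        δ * (x * prR (nuR (fun q n => ∃ i, (q : ℤ) ∣ (F i).eval (n : ℤ) + k i)) x) ≤
          ({n : ℕ | n ∈ Set.Ioc 0 (0 + x) ∧ (x : ℝ) ^ (1 / 4 : ℝ) < n ∧
            ∀ i, ((F i).eval (n : ℤ) + k i).toNat.Prime}.ncard : ℝ) := by
  classical
  obtain ⟨c1, hc1, h⟩ := Pool.Agent.Y843.AQ.sg_low F hd hl (fun _ => 1) (fun _ => Or.inl rfl)
  obtain ⟨ρ, hρ⟩ : ∃ ρ : ℕ, ρ = ∑ i, (F i).natDegree := ⟨_, rfl⟩
  obtain ⟨c, hc, X₁, hV⟩ := PX_low ρ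
  refine ⟨c1 / 2, by positivity, fun B hB U => ?_⟩
  obtain ⟨N1, h1⟩ := h B hB U
  have hsmall : ∀ᶠ x : ℕ in atTop, (x : ℝ) ^ (1 / 4 : ℝ) * Real.log x ^ (2 * ρ) ≤ c1 / 2 * c * x := by
    have h2 := (isLittleO_log_rpow_rpow_atTop ((2 * ρ : ℕ) : ℝ) (show (0 : ℝ) < 3 / 4 by norm_num)).bound
      (show (0 : ℝ) < c1 / 2 * c by positivity)
    filter_upwards [(tendsto_natCast_atTop_atTop (R := ℝ)).eventually h2, eventually_ge_atTop 3] with x hx hx3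
    have hx0 : (0 : ℝ) < x := by exact_mod_cast (by omega : 0 < x)
    have hl0 : 0 < Real.log x := Real.log_pos (by exact_mod_cast (by omega : 1 < x))
    rw [Real.rpow_natCast, Real.norm_of_nonneg (by positivity), Real.norm_of_nonneg (by positivity)] at hx
    calc (x : ℝ) ^ (1 / 4 : ℝ) * Real.log x ^ (2 * ρ) ≤ (x : ℝ) ^ (1 / 4 : ℝ) * (c1 / 2 * c * (x : ℝ) ^ (3 / 4 : ℝ)) :=
          mul_le_mul_of_nonneg_left hx (by positivity)
      _ = c1 / 2 * c * ((x : ℝ) ^ (1 / 4 : ℝ) * (x : ℝ) ^ (3 / 4 : ℝ)) := by ring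
      _ = c1 / 2 * c * x := by
          rw [← Real.rpow_add hx0]
          norm_num
  rw [eventually_atTop] at hsmall
  obtain ⟨N2, h2⟩ := hsmall
  refine ⟨max (max N1 N2) (max X₁ 3), fun x hx A hA => ?_⟩
  have hx1 : N1 ≤ x := (le_max_left _ _).trans ((le_max_left _ _).trans hx)
  have hx2 : N2 ≤ x := (le_max_right _ _).trans ((le_max_left _ _).trans hx)
  have hx3 : X₁ ≤ x := (le_max_left _ _).trans ((le_max_right _ _).trans hx)
  have hx4 : 3 ≤ x := (le_max_right _ _).trans ((le_max_right _ _).trans hx)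
  have hx0 : (0 : ℝ) < x := by exact_mod_cast (by omega : 0 < x)
  have hxr : (1 : ℝ) ≤ x := by exact_mod_cast (by omega : 1 ≤ x)
  have hl0 : 0 < Real.log x := Real.log_pos (by exact_mod_cast (by omega : 1 < x))
  obtain ⟨E, hE, h3⟩ := h1 x hx1 A hA
  refine ⟨E, hE, fun k hk hkE hNF => ?_⟩
  obtain ⟨G, hG⟩ : ∃ G : Fin r → ℤ[X], G = fun i => F i + C (k i : ℤ) := ⟨_, rfl⟩
  have hGe : ∀ i (n : ℤ), (G i).eval n = (F i).eval n + k i := by
    intro i n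
    rw [hG]
    simp
  obtain ⟨R, hRd⟩ : ∃ R : ℕ → ℕ → Prop, R = fun (q n : ℕ) => ∃ i, (q : ℤ) ∣ (F i).eval (n : ℤ) + k i := ⟨_, rfl⟩
  have hR : ∀ q n : ℕ, 1 ≤ n → (R q n ↔ ∃ i, (q : ℤ) ∣ (G i).eval (n : ℤ)) := by
    intro q n _
    rw [hRd]
    simp only [hGe]
  have hGP : ∏ i, (F i + C (k i : ℤ)) = ∏ i, G i := by rw [hG]
  rw [hGP] at hNF
  rw [← hRd]
  have hdeg : (∏ i, G i).natDegree ≤ ρ := by
    refine (natDegree_prod_le _ _).trans ?_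
    rw [hρ]
    apply sum_le_sum
    intro i _
    rw [hG]
    exact (natDegree_add_le _ _).trans (max_le le_rfl (by rw [natDegree_C]; exact Nat.zero_le _))
  have hVx := hV x hx3 (∏ i, G i) hdeg hNF
  -- the product
  have hprod : prR (nuR R) x = VV (Zf (∏ i, G i)) 0 x := by
    rw [PX_eq (Zf (∏ i, G i)) (fun q => (Zf (∏ i, G i) q).card) (fun _ _ => rfl),
      PX_prR (fun q => (Zf (∏ i, G i) q).card) (nuR R) (fun q hq => Zf_nuR G R hR hq) x]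
  have hvl : ∀ i n, Pool.Agent.H373R2.T7.vl F (fun _ => 1) k i n = (F i).eval (n : ℤ) + k i := by
    intro i n
    unfold Pool.Agent.H373R2.T7.vl
    ring
  have hnuB : ∀ p : ℕ, p.Prime → Pool.Agent.H373R2.T7.nuB (Pool.Agent.H373R2.T7.sysQ F (fun _ => 1) k) p =
      (Zf (∏ i, G i) p).card := by
    intro p hp
    unfold Pool.Agent.H373R2.T7.nuB Zf
    congr 1
    ext u
    rw [mem_filter, mem_filter]
    apply and_congr_right
    intro _
    unfold Pool.Agent.H373R2.T7.sysQ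
    rw [eval_prod, (Nat.prime_iff_prime_int.1 hp).dvd_finsetProd_iff]
    simp only [hvl, hGe, mem_univ, true_and]
  have hpr0 : c1 * x * VV (Zf (∏ i, G i)) 0 ⌊(x : ℝ) ^ (1 / 4 : ℝ)⌋₊ ≤
      (Pool.Agent.H373R2.T7.prCount F (fun _ => 1) k x : ℝ) := by
    have h4 := h3 k (by
      unfold Pool.Agent.Y843.AQ.bx
      rw [Fintype.mem_piFinset]
      exact fun i => mem_Icc.2 (hk i)) hkE (fun n hn i => by
        rw [hvl]
        have h5 := hF i n (mem_Icc.1 hn).1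
        have h6 := (mem_Icc.1 hn).1
        have h7 : (1 : ℤ) ≤ n := by exact_mod_cast h6
        have h8 : (0 : ℤ) ≤ k i := Int.natCast_nonneg _
        linarith) (fun p hp => by
        have h5 := Zf_card_lt hNF hp
        by_contra hcon
        push Not at hcon
        have h6 : (Zf (∏ i, G i) p).card = p := by
          rw [← hnuB p hp]
          unfold Pool.Agent.H373R2.T7.nuB
          rw [filter_true_of_mem (fun u _ => hcon u), card_range]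
        omega)
    refine le_trans (le_of_eq ?_) h4
    congr 1
    unfold VV
    apply prod_congr
    · unfold Pool.Agent.Y843.AQ.Pz Pr
      rfl
    · intro p hp
      rw [hnuB p (mem_filter.1 hp).2]
  have hYx : ⌊(x : ℝ) ^ (1 / 4 : ℝ)⌋₊ ≤ x := by
    have h6 : ((⌊(x : ℝ) ^ (1 / 4 : ℝ)⌋₊ : ℕ) : ℝ) ≤ (x : ℝ) ^ (1 / 4 : ℝ) := Nat.floor_le (by positivity)
    have h7 : (x : ℝ) ^ (1 / 4 : ℝ) ≤ x := by
      calc (x : ℝ) ^ (1 / 4 : ℝ) ≤ (x : ℝ) ^ (1 : ℝ) := Real.rpow_le_rpow_of_exponent_le hxr (by norm_num)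
        _ = x := Real.rpow_one _
    exact_mod_cast h6.trans h7
  have hone : ∀ a b, VV (Zf (∏ i, G i)) a b ≤ 1 ∧ 0 ≤ VV (Zf (∏ i, G i)) a b := by
    intro a b
    unfold VV
    have h5 : ∀ q ∈ Pr a b, 0 ≤ 1 - ((Zf (∏ i, G i) q).card : ℝ) / q := by
      intro q hq
      have hq1 : q.Prime := (mem_filter.1 hq).2
      have hq0 : (0 : ℝ) < q := by exact_mod_cast hq1.pos
      have h6 : ((Zf (∏ i, G i) q).card : ℝ) ≤ q := by exact_mod_cast (Zf_card_lt hNF hq1).le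
      rw [sub_nonneg, div_le_one hq0]
      exact h6
    refine ⟨Finset.prod_le_one h5 fun q _ => ?_, prod_nonneg h5⟩
    have : (0 : ℝ) ≤ ((Zf (∏ i, G i) q).card : ℝ) / q := by positivity
    linarith
  have hmono : VV (Zf (∏ i, G i)) 0 x ≤ VV (Zf (∏ i, G i)) 0 ⌊(x : ℝ) ^ (1 / 4 : ℝ)⌋₊ := by
    rw [← VV_split (Zf (∏ i, G i)) (Nat.zero_le _) hYx]
    exact mul_le_of_le_one_right (hone _ _).2 (hone _ _).1
  rw [hprod]
  -- the small `n`
  obtain ⟨S, hS⟩ : ∃ S : Finset ℕ, S = (Icc 1 x).filter (fun n => ∀ i,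
    (Pool.Agent.H373R2.T7.vl F (fun _ => 1) k i n).toNat.Prime) := ⟨_, rfl⟩
  have hcount : (Pool.Agent.H373R2.T7.prCount F (fun _ => 1) k x : ℝ) ≤
      ({n : ℕ | n ∈ Set.Ioc 0 (0 + x) ∧ (x : ℝ) ^ (1 / 4 : ℝ) < n ∧
            ∀ i, ((F i).eval (n : ℤ) + k i).toNat.Prime}.ncard : ℝ) + (x : ℝ) ^ (1 / 4 : ℝ) := by
    have h5 : Pool.Agent.H373R2.T7.prCount F (fun _ => 1) k x = S.card := by
      rw [hS]
      rfl
    have h6 : S ⊆ S.filter (fun n : ℕ => (x : ℝ) ^ (1 / 4 : ℝ) < n) ∪ Icc 1 ⌊(x : ℝ) ^ (1 / 4 : ℝ)⌋₊ := by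
      intro n hn
      rw [mem_union, mem_filter, mem_Icc]
      rcases lt_or_ge ((x : ℝ) ^ (1 / 4 : ℝ)) n with h7 | h7
      · exact Or.inl ⟨hn, h7⟩
      · right
        rw [hS, mem_filter, mem_Icc] at hn
        exact ⟨hn.1.1, Nat.le_floor h7⟩
    have h7 : S.card ≤ (S.filter (fun n : ℕ => (x : ℝ) ^ (1 / 4 : ℝ) < n)).card + ⌊(x : ℝ) ^ (1 / 4 : ℝ)⌋₊ := by
      refine (card_le_card h6).trans ((card_union_le _ _).trans ?_)
      rw [Nat.card_Icc, Nat.add_sub_cancel]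
    have h8 : (S.filter (fun n : ℕ => (x : ℝ) ^ (1 / 4 : ℝ) < n)).card ≤
        {n : ℕ | n ∈ Set.Ioc 0 (0 + x) ∧ (x : ℝ) ^ (1 / 4 : ℝ) < n ∧
            ∀ i, ((F i).eval (n : ℤ) + k i).toNat.Prime}.ncard := by
      rw [← Set.ncard_coe_finset]
      apply Set.ncard_le_ncard _ ((Set.finite_Ioc 0 (0 + x)).subset fun n hn => hn.1)
      intro n hn
      rw [Finset.mem_coe, mem_filter, hS, mem_filter, mem_Icc] at hn
      obtain ⟨⟨⟨h9, h10⟩, h11⟩, h12⟩ := hn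
      refine ⟨⟨by omega, by omega⟩, h12, fun i => ?_⟩
      rw [← hvl]
      exact h11 i
    have h9 : ((⌊(x : ℝ) ^ (1 / 4 : ℝ)⌋₊ : ℕ) : ℝ) ≤ (x : ℝ) ^ (1 / 4 : ℝ) := Nat.floor_le (by positivity)
    rw [h5]
    calc (S.card : ℝ) ≤ (((S.filter (fun n : ℕ => (x : ℝ) ^ (1 / 4 : ℝ) < n)).card + ⌊(x : ℝ) ^ (1 / 4 : ℝ)⌋₊ : ℕ) : ℝ) := by
          exact_mod_cast h7
      _ ≤ _ := by
          push_cast
          have : ((S.filter (fun n : ℕ => (x : ℝ) ^ (1 / 4 : ℝ) < n)).card : ℝ) ≤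
            ({n : ℕ | n ∈ Set.Ioc 0 (0 + x) ∧ (x : ℝ) ^ (1 / 4 : ℝ) < n ∧
              ∀ i, ((F i).eval (n : ℤ) + k i).toNat.Prime}.ncard : ℝ) := by exact_mod_cast h8
          linarith
  have hquarter : (x : ℝ) ^ (1 / 4 : ℝ) ≤ c1 / 2 * (x * VV (Zf (∏ i, G i)) 0 x) := by
    have h5 := h2 x hx2
    have hLp : 0 < Real.log x ^ (2 * ρ) := by positivity
    calc (x : ℝ) ^ (1 / 4 : ℝ) ≤ c1 / 2 * c * x / Real.log x ^ (2 * ρ) := by
          rw [le_div_iff₀ hLp]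
          exact h5
      _ = c1 / 2 * (x * (c / Real.log x ^ (2 * ρ))) := by ring
      _ ≤ _ := by
          apply mul_le_mul_of_nonneg_left _ (by positivity)
          exact mul_le_mul_of_nonneg_left hVx hx0.le
  have h5 : c1 * x * VV (Zf (∏ i, G i)) 0 x ≤ (Pool.Agent.H373R2.T7.prCount F (fun _ => 1) k x : ℝ) :=
    (mul_le_mul_of_nonneg_left hmono (by positivity)).trans hpr0
  have h6 : c1 * x * VV (Zf (∏ i, G i)) 0 x = c1 / 2 * (x * VV (Zf (∏ i, G i)) 0 x) +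
      c1 / 2 * (x * VV (Zf (∏ i, G i)) 0 x) := by ring
  linarith

end Pool.Agent.Helper269
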