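import Pool.Agent.Helper269.Pri

set_option autoImplicit false

/-!
# Lower bounds for the number of simultaneous prime values of almost all systems `k_i ± F_i(n)`
-/

namespace Pool.Agent.Helper269

open Filter Finset Polynomial
open Pool.Agent.X26.GP (Zf NF PX PX_eq Zf_lt Zf_card_le Zf_card_lt)
open Pool.Agent.Y843.HS (VV Pr Sv EE EE_log VV_ge VV_split)
open Pool.Agent.X69.Ric (prR PX_prR)

/-- few `n` have a small value -/
theorem few_small (G : ℤ[X]) (hG : 1 ≤ G.natDegree) (x T : ℕ) :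
    ((Icc 1 x).filter (fun n : ℕ => 1 ≤ G.eval (n : ℤ) ∧ G.eval (n : ℤ) ≤ T)).card ≤ G.natDegree * T := by
  classical
  have h1 : (Icc 1 x).filter (fun n : ℕ => 1 ≤ G.eval (n : ℤ) ∧ G.eval (n : ℤ) ≤ T) ⊆
      (Icc 1 T).biUnion (fun v => (Icc 1 x).filter (fun n : ℕ => G.eval (n : ℤ) = v)) := by
    intro n hn
    rw [mem_filter] at hn
    rw [mem_biUnion]
    obtain ⟨h1, h2, h3⟩ := hn
    refine ⟨(G.eval (n : ℤ)).toNat, ?_, ?_⟩
    · rw [mem_Icc]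
      omega
    · rw [mem_filter]
      exact ⟨h1, by omega⟩
  refine (card_le_card h1).trans (card_biUnion_le.trans ?_)
  refine (sum_le_card_nsmul _ _ G.natDegree ?_).trans (by rw [Nat.card_Icc, Nat.add_sub_cancel, smul_eq_mul, mul_comm])
  intro v _
  have hne : G - C (v : ℤ) ≠ 0 := by
    intro h0
    have h2 : G = C (v : ℤ) := sub_eq_zero.1 h0
    rw [h2, natDegree_C] at hG
    omega
  have h3 : (((Icc 1 x).filter (fun n : ℕ => G.eval (n : ℤ) = v)).image (fun n : ℕ => (n : ℤ))) ⊆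
      (G - C (v : ℤ)).roots.toFinset := by
    intro y hy
    obtain ⟨n, hn, rfl⟩ := mem_image.1 hy
    rw [Multiset.mem_toFinset, mem_roots hne, IsRoot.def, eval_sub, eval_C, (mem_filter.1 hn).2, sub_self]
  have h4 := card_le_card h3
  rw [card_image_of_injective _ Nat.cast_injective] at h4
  refine h4.trans ((Multiset.toFinset_card_le _).trans ((card_roots' _).trans ?_))
  rw [natDegree_sub_C]

/-- **Prime values of almost all systems, with signs**. -/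
theorem pri_sgn {r : ℕ} (F : Fin r → ℤ[X]) (hd : ∀ i, 1 ≤ (F i).natDegree) (hl : ∀ i, 0 < (F i).leadingCoeff)
    (σ : Fin r → ℤ) (hσ : ∀ i, σ i = 1 ∨ σ i = -1) :
    ∃ δ : ℝ, 0 < δ ∧ ∀ B : ℕ, 1 ≤ B → ∀ U : ℕ, ∃ N0 : ℕ, ∀ x : ℕ, N0 ≤ x → ∀ A : Fin r → ℕ,
      (∀ i, A i ≤ B * x ^ (F i).natDegree ∧ x ^ (F i).natDegree ≤ B * A i) →
      ∃ E : Finset (Fin r → ℕ), (E.card : ℝ) ≤ (∏ i, (A i : ℝ)) / Real.log x ^ U ∧
        ∀ k : Fin r → ℕ, (∀ i, 1 ≤ k i ∧ k i ≤ A i) → k ∉ E →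
        (∀ n : ℕ, 1 ≤ n → n ≤ x → ∀ i, 1 ≤ σ i * (F i).eval (n : ℤ) + k i) →
        NF (∏ i, (C (σ i) * F i + C (k i : ℤ))) →
        δ * (x * prR (nuR (fun q n => ∃ i, (q : ℤ) ∣ σ i * (F i).eval (n : ℤ) + k i)) x) ≤
          ({n : ℕ | n ∈ Set.Ioc 0 (0 + x) ∧ ∀ i, (σ i * (F i).eval (n : ℤ) + k i).toNat.Prime ∧
            (x : ℝ) ^ (1 / 3 : ℝ) < ((σ i * (F i).eval (n : ℤ) + k i : ℤ) : ℝ)}.ncard : ℝ) := by
  classical
  obtain ⟨c1, hc1, h⟩ := Pool.Agent.Y843.AQ.sg_low F hd hl σ hσ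
  obtain ⟨ρ, hρ⟩ : ∃ ρ : ℕ, ρ = ∑ i, (F i).natDegree := ⟨_, rfl⟩
  obtain ⟨c, hc, X₁, hV⟩ := PX_low ρ
  refine ⟨c1 / 2, by positivity, fun B hB U => ?_⟩
  obtain ⟨N1, h1⟩ := h B hB U
  have hsmall : ∀ᶠ x : ℕ in atTop, ρ * (x : ℝ) ^ (1 / 3 : ℝ) * Real.log x ^ (2 * ρ) ≤ c1 / 2 * c * x := by
    have h2 := (isLittleO_log_rpow_rpow_atTop ((2 * ρ : ℕ) : ℝ) (show (0 : ℝ) < 2 / 3 by norm_num)).bound
      (show (0 : ℝ) < c1 / 2 * c / (ρ + 1) by positivity)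
    filter_upwards [(tendsto_natCast_atTop_atTop (R := ℝ)).eventually h2, eventually_ge_atTop 3] with x hx hx3
    have hx0 : (0 : ℝ) < x := by exact_mod_cast (by omega : 0 < x)
    have hl0 : 0 < Real.log x := Real.log_pos (by exact_mod_cast (by omega : 1 < x))
    rw [Real.rpow_natCast, Real.norm_of_nonneg (by positivity), Real.norm_of_nonneg (by positivity)] at hx
    calc ρ * (x : ℝ) ^ (1 / 3 : ℝ) * Real.log x ^ (2 * ρ) ≤
          (ρ + 1) * (x : ℝ) ^ (1 / 3 : ℝ) * (c1 / 2 * c / (ρ + 1) * (x : ℝ) ^ (2 / 3 : ℝ)) := by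
          apply mul_le_mul _ hx (by positivity) (by positivity)
          apply mul_le_mul_of_nonneg_right _ (by positivity)
          linarith
      _ = c1 / 2 * c * ((x : ℝ) ^ (1 / 3 : ℝ) * (x : ℝ) ^ (2 / 3 : ℝ)) := by field_simp
      _ = c1 / 2 * c * x := by
          rw [← Real.rpow_add hx0]
          norm_num
  rw [eventually_atTop] at hsmall
  obtain ⟨N2, h2⟩ := hsmall
  refine ⟨max (max N1 N2) (max X₁ 3), fun x hx A hA => ?_⟩
  have hx1 : N1 ≤ x := (le_max_left _ _).trans ((le_max_left _ _).trans hx)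
  have hx2 : N2 ≤ x := (le_max_right _ _).trans ((le_max_left _ _).trans hx)
  have hx3 : X₁ ≤ x := (le_max_left _ _).trans ((le_max_right _ _).trans hx)
  have hx4 : 3 ≤ x := (le_max_right _ _).trans ((le_max_right _ _).trans hx)
  have hx0 : (0 : ℝ) < x := by exact_mod_cast (by omega : 0 < x)
  have hxr : (1 : ℝ) ≤ x := by exact_mod_cast (by omega : 1 ≤ x)
  have hl0 : 0 < Real.log x := Real.log_pos (by exact_mod_cast (by omega : 1 < x))
  obtain ⟨E, hE, h3⟩ := h1 x hx1 A hA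
  refine ⟨E, hE, fun k hk hkE hpos hNF => ?_⟩
  obtain ⟨G, hG⟩ : ∃ G : Fin r → ℤ[X], G = fun i => C (σ i) * F i + C (k i : ℤ) := ⟨_, rfl⟩
  have hGe : ∀ i (n : ℤ), (G i).eval n = σ i * (F i).eval n + k i := by
    intro i n
    rw [hG]
    simp
  obtain ⟨R, hRd⟩ : ∃ R : ℕ → ℕ → Prop, R = fun (q n : ℕ) => ∃ i, (q : ℤ) ∣ σ i * (F i).eval (n : ℤ) + k i := ⟨_, rfl⟩
  have hR : ∀ q n : ℕ, 1 ≤ n → (R q n ↔ ∃ i, (q : ℤ) ∣ (G i).eval (n : ℤ)) := by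
    intro q n _
    rw [hRd]
    simp only [hGe]
  have hGP : ∏ i, (C (σ i) * F i + C (k i : ℤ)) = ∏ i, G i := by rw [hG]
  rw [hGP] at hNF
  rw [← hRd]
  have hdegi : ∀ i, (G i).natDegree = (F i).natDegree := by
    intro i
    rw [hG]
    show (C (σ i) * F i + C (k i : ℤ)).natDegree = _
    rw [natDegree_add_C]
    rcases hσ i with h4 | h4
    · rw [h4, C_1, one_mul]
    · rw [h4, C_neg, C_1, neg_one_mul, natDegree_neg]
  have hdeg : (∏ i, G i).natDegree ≤ ρ := by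
    refine (natDegree_prod_le _ _).trans ?_
    rw [hρ]
    apply sum_le_sum
    intro i _
    exact (hdegi i).le
  have hVx := hV x hx3 (∏ i, G i) hdeg hNF
  -- the product
  have hprod : prR (nuR R) x = VV (Zf (∏ i, G i)) 0 x := by
    rw [PX_eq (Zf (∏ i, G i)) (fun q => (Zf (∏ i, G i) q).card) (fun _ _ => rfl),
      PX_prR (fun q => (Zf (∏ i, G i) q).card) (nuR R) (fun q hq => Zf_nuR G R hR hq) x]
  have hvl : ∀ i n, Pool.Agent.H373R2.T7.vl F σ k i n = σ i * (F i).eval (n : ℤ) + k i := by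
    intro i n
    unfold Pool.Agent.H373R2.T7.vl
    ring
  have hnuB : ∀ p : ℕ, p.Prime → Pool.Agent.H373R2.T7.nuB (Pool.Agent.H373R2.T7.sysQ F σ k) p =
      (Zf (∏ i, G i) p).card := by
    intro p hp
    unfold Pool.Agent.H373R2.T7.nuB Zf
    congr 1
    ext u
    rw [mem_filter, mem_filter]
    apply and_congr_right
    intro _
    unfold Pool.Agent.H373R2.T7.sysQ
    rw [eval_prod, (Nat.prime_iff_prime_int.1 hp).dvd_finsetProd_iff]
    simp only [hvl, hGe, mem_univ, true_and]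
  have hpr0 : c1 * x * VV (Zf (∏ i, G i)) 0 ⌊(x : ℝ) ^ (1 / 4 : ℝ)⌋₊ ≤
      (Pool.Agent.H373R2.T7.prCount F σ k x : ℝ) := by
    have h4 := h3 k (by
      unfold Pool.Agent.Y843.AQ.bx
      rw [Fintype.mem_piFinset]
      exact fun i => mem_Icc.2 (hk i)) hkE (fun n hn i => by
        rw [hvl]
        exact hpos n (mem_Icc.1 hn).1 (mem_Icc.1 hn).2 i) (fun p hp => by
        have h5 := Zf_card_lt hNF hp
        by_contra hcon
        push Not at hcon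
        have h6 : (Zf (∏ i, G i) p).card = p := by
          rw [← hnuB p hp]
          unfold Pool.Agent.H373R2.T7.nuB
          rw [filter_true_of_mem (fun u _ => hcon u), card_range]
        omega)
    refine le_trans (le_of_eq ?_) h4
    congr 1
    unfold VV
    apply prod_congr
    · unfold Pool.Agent.Y843.AQ.Pz Pr
      rfl
    · intro p hp
      rw [hnuB p (mem_filter.1 hp).2]
  have hYx : ⌊(x : ℝ) ^ (1 / 4 : ℝ)⌋₊ ≤ x := by
    have h6 : ((⌊(x : ℝ) ^ (1 / 4 : ℝ)⌋₊ : ℕ) : ℝ) ≤ (x : ℝ) ^ (1 / 4 : ℝ) := Nat.floor_le (by positivity)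
    have h7 : (x : ℝ) ^ (1 / 4 : ℝ) ≤ x := by
      calc (x : ℝ) ^ (1 / 4 : ℝ) ≤ (x : ℝ) ^ (1 : ℝ) := Real.rpow_le_rpow_of_exponent_le hxr (by norm_num)
        _ = x := Real.rpow_one _
    exact_mod_cast h6.trans h7
  have hone : ∀ a b, VV (Zf (∏ i, G i)) a b ≤ 1 ∧ 0 ≤ VV (Zf (∏ i, G i)) a b := by
    intro a b
    unfold VV
    have h5 : ∀ q ∈ Pr a b, 0 ≤ 1 - ((Zf (∏ i, G i) q).card : ℝ) / q := by
      intro q hq
      have hq1 : q.Prime := (mem_filter.1 hq).2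
      have hq0 : (0 : ℝ) < q := by exact_mod_cast hq1.pos
      have h6 : ((Zf (∏ i, G i) q).card : ℝ) ≤ q := by exact_mod_cast (Zf_card_lt hNF hq1).le
      rw [sub_nonneg, div_le_one hq0]
      exact h6
    refine ⟨Finset.prod_le_one h5 fun q _ => ?_, prod_nonneg h5⟩
    have : (0 : ℝ) ≤ ((Zf (∏ i, G i) q).card : ℝ) / q := by positivity
    linarith
  have hmono : VV (Zf (∏ i, G i)) 0 x ≤ VV (Zf (∏ i, G i)) 0 ⌊(x : ℝ) ^ (1 / 4 : ℝ)⌋₊ := by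
    rw [← VV_split (Zf (∏ i, G i)) (Nat.zero_le _) hYx]
    exact mul_le_of_le_one_right (hone _ _).2 (hone _ _).1
  rw [hprod]
  -- the small `n`
  obtain ⟨S, hS⟩ : ∃ S : Finset ℕ, S = (Icc 1 x).filter (fun n => ∀ i,
    (Pool.Agent.H373R2.T7.vl F σ k i n).toNat.Prime) := ⟨_, rfl⟩
  have hcount : (Pool.Agent.H373R2.T7.prCount F σ k x : ℝ) ≤
      ({n : ℕ | n ∈ Set.Ioc 0 (0 + x) ∧ ∀ i, (σ i * (F i).eval (n : ℤ) + k i).toNat.Prime ∧
            (x : ℝ) ^ (1 / 3 : ℝ) < ((σ i * (F i).eval (n : ℤ) + k i : ℤ) : ℝ)}.ncard : ℝ) +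
        ρ * (x : ℝ) ^ (1 / 3 : ℝ) := by
    have h5 : Pool.Agent.H373R2.T7.prCount F σ k x = S.card := by
      rw [hS]
      rfl
    have h6 : S ⊆ S.filter (fun n : ℕ => ∀ i, (x : ℝ) ^ (1 / 3 : ℝ) < (((G i).eval (n : ℤ) : ℤ) : ℝ)) ∪
        univ.biUnion (fun i => (Icc 1 x).filter (fun n : ℕ => 1 ≤ (G i).eval (n : ℤ) ∧
          (G i).eval (n : ℤ) ≤ (⌊(x : ℝ) ^ (1 / 3 : ℝ)⌋₊ : ℕ))) := by
      intro n hn
      rw [mem_union, mem_filter, mem_biUnion]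
      have hn1 := hn
      rw [hS, mem_filter, mem_Icc] at hn1
      by_cases h7 : ∀ i, (x : ℝ) ^ (1 / 3 : ℝ) < (((G i).eval (n : ℤ) : ℤ) : ℝ)
      · exact Or.inl ⟨hn, h7⟩
      · right
        push Not at h7
        obtain ⟨i, hi⟩ := h7
        refine ⟨i, mem_univ i, ?_⟩
        rw [mem_filter, mem_Icc]
        have h8 : 1 ≤ (G i).eval (n : ℤ) := by
          rw [hGe]
          exact hpos n hn1.1.1 hn1.1.2 i
        refine ⟨hn1.1, h8, ?_⟩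
        obtain ⟨v, hv⟩ : ∃ v : ℕ, (G i).eval (n : ℤ) = (v : ℤ) := ⟨((G i).eval (n : ℤ)).toNat, by omega⟩
        rw [hv] at hi ⊢
        have h9 : (v : ℝ) ≤ (x : ℝ) ^ (1 / 3 : ℝ) := by exact_mod_cast hi
        exact_mod_cast Nat.le_floor h9
    have h7 : S.card ≤ (S.filter (fun n : ℕ => ∀ i, (x : ℝ) ^ (1 / 3 : ℝ) < (((G i).eval (n : ℤ) : ℤ) : ℝ))).card +
        ρ * ⌊(x : ℝ) ^ (1 / 3 : ℝ)⌋₊ := by
      refine (card_le_card h6).trans ((card_union_le _ _).trans ?_)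
      refine Nat.add_le_add_left (card_biUnion_le.trans ?_) _
      rw [hρ, sum_mul]
      apply sum_le_sum
      intro i _
      refine (few_small (G i) (by rw [hdegi]; exact hd i) x _).trans ?_
      rw [hdegi]
    have h8 : (S.filter (fun n : ℕ => ∀ i, (x : ℝ) ^ (1 / 3 : ℝ) < (((G i).eval (n : ℤ) : ℤ) : ℝ))).card ≤
        {n : ℕ | n ∈ Set.Ioc 0 (0 + x) ∧ ∀ i, (σ i * (F i).eval (n : ℤ) + k i).toNat.Prime ∧
            (x : ℝ) ^ (1 / 3 : ℝ) < ((σ i * (F i).eval (n : ℤ) + k i : ℤ) : ℝ)}.ncard := by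
      rw [← Set.ncard_coe_finset]
      apply Set.ncard_le_ncard _ ((Set.finite_Ioc 0 (0 + x)).subset fun n hn => hn.1)
      intro n hn
      rw [Finset.mem_coe, mem_filter, hS, mem_filter, mem_Icc] at hn
      obtain ⟨⟨⟨h9, h10⟩, h11⟩, h12⟩ := hn
      refine ⟨⟨by omega, by omega⟩, fun i => ⟨?_, ?_⟩⟩
      · rw [← hvl]
        exact h11 i
      · rw [← hGe]
        exact h12 i
    have h9 : ((⌊(x : ℝ) ^ (1 / 3 : ℝ)⌋₊ : ℕ) : ℝ) ≤ (x : ℝ) ^ (1 / 3 : ℝ) := Nat.floor_le (by positivity)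
    rw [h5]
    calc (S.card : ℝ) ≤ (((S.filter (fun n : ℕ => ∀ i, (x : ℝ) ^ (1 / 3 : ℝ) <
          (((G i).eval (n : ℤ) : ℤ) : ℝ))).card + ρ * ⌊(x : ℝ) ^ (1 / 3 : ℝ)⌋₊ : ℕ) : ℝ) := by
          exact_mod_cast h7
      _ ≤ _ := by
          push_cast
          have h10 : ((S.filter (fun n : ℕ => ∀ i, (x : ℝ) ^ (1 / 3 : ℝ) < (((G i).eval (n : ℤ) : ℤ) : ℝ))).card : ℝ) ≤
            ({n : ℕ | n ∈ Set.Ioc 0 (0 + x) ∧ ∀ i, (σ i * (F i).eval (n : ℤ) + k i).toNat.Prime ∧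
              (x : ℝ) ^ (1 / 3 : ℝ) < ((σ i * (F i).eval (n : ℤ) + k i : ℤ) : ℝ)}.ncard : ℝ) := by
            exact_mod_cast h8
          have h11 : (ρ : ℝ) * ((⌊(x : ℝ) ^ (1 / 3 : ℝ)⌋₊ : ℕ) : ℝ) ≤ ρ * (x : ℝ) ^ (1 / 3 : ℝ) :=
            mul_le_mul_of_nonneg_left h9 (Nat.cast_nonneg _)
          push_cast at h10
          linarith
  have hquarter : ρ * (x : ℝ) ^ (1 / 3 : ℝ) ≤ c1 / 2 * (x * VV (Zf (∏ i, G i)) 0 x) := by
    have h5 := h2 x hx2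
    have hLp : 0 < Real.log x ^ (2 * ρ) := by positivity
    calc ρ * (x : ℝ) ^ (1 / 3 : ℝ) ≤ c1 / 2 * c * x / Real.log x ^ (2 * ρ) := by
          rw [le_div_iff₀ hLp]
          exact h5
      _ = c1 / 2 * (x * (c / Real.log x ^ (2 * ρ))) := by ring
      _ ≤ _ := by
          apply mul_le_mul_of_nonneg_left _ (by positivity)
          exact mul_le_mul_of_nonneg_left hVx hx0.le
  have h5 : c1 * x * VV (Zf (∏ i, G i)) 0 x ≤ (Pool.Agent.H373R2.T7.prCount F σ k x : ℝ) :=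
    (mul_le_mul_of_nonneg_left hmono (by positivity)).trans hpr0
  have h6 : c1 * x * VV (Zf (∏ i, G i)) 0 x = c1 / 2 * (x * VV (Zf (∏ i, G i)) 0 x) +
      c1 / 2 * (x * VV (Zf (∏ i, G i)) 0 x) := by ring
  linarith

end Pool.Agent.Helper269
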