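import Mathlib

set_option autoImplicit false

/-!
# Linear congruences
-/

namespace Pool.Agent.Helper269

/-- a linear congruence has exactly one solution -/
theorem root (q x b : ℕ) (hq : q.Prime) (hb : ¬ q ∣ b) : ∃ u : ℕ, (1 ≤ u ∧ u ≤ q ∧ q ∣ x + b * u) ∧
    ∀ u' : ℕ, 1 ≤ u' → u' ≤ q → q ∣ x + b * u' → u' = u := by
  have hq0 : (0 : ℤ) < q := by exact_mod_cast hq.pos
  obtain ⟨s, v, hsv⟩ := Nat.isCoprime_iff_coprime.2 ((Nat.Prime.coprime_iff_not_dvd hq).2 hb)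
  obtain ⟨z, hz1, hz2⟩ := Int.existsUnique_equiv_nat (-x * v) hq0
  have hz1' : z < q := by exact_mod_cast hz1
  have key : (q : ℤ) ∣ x + b * z := by
    obtain ⟨w, hw⟩ := hz2.dvd
    refine ⟨x * s - b * w, ?_⟩
    have h1 : (z : ℤ) = -x * v - q * w := by linarith
    have h2 : v * (b : ℤ) = 1 - s * q := by linarith
    rw [h1]
    linear_combination (-(x : ℤ)) * h2
  have uniq : ∀ u u' : ℕ, 1 ≤ u → u ≤ q → 1 ≤ u' → u' ≤ q → q ∣ x + b * u → q ∣ x + b * u' → u' = u := by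
    intro u u' h1 h2 h3 h4 h5 h6
    have h7 : (q : ℤ) ∣ b * ((u' : ℤ) - u) := by
      have h8 : (q : ℤ) ∣ ((x + b * u' : ℕ) : ℤ) - ((x + b * u : ℕ) : ℤ) :=
        dvd_sub (Int.natCast_dvd_natCast.2 h6) (Int.natCast_dvd_natCast.2 h5)
      have h9 : ((x + b * u' : ℕ) : ℤ) - ((x + b * u : ℕ) : ℤ) = b * ((u' : ℤ) - u) := by
        push_cast
        ring
      rwa [h9] at h8
    rcases (Nat.prime_iff_prime_int.1 hq).dvd_or_dvd h7 with h8 | h8
    · exact absurd (Int.natCast_dvd_natCast.1 h8) hb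
    · have h9 := Int.eq_zero_of_abs_lt_dvd h8 (by rw [abs_lt]; constructor <;> omega)
      omega
  rcases Nat.eq_zero_or_pos z with h0 | h0
  · have h1 : q ∣ x + b * q := by
      have h2 : (q : ℤ) ∣ ((x + b * q : ℕ) : ℤ) := by
        rw [h0] at key
        push_cast
        have h3 := dvd_add key (dvd_mul_left (q : ℤ) b)
        simpa using h3
      exact Int.natCast_dvd_natCast.1 h2
    exact ⟨q, ⟨hq.pos, le_rfl, h1⟩, fun u' h3 h4 h5 => uniq q u' hq.pos le_rfl h3 h4 h1 h5⟩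
  · have h1 : q ∣ x + b * z := by
      have h2 : (q : ℤ) ∣ ((x + b * z : ℕ) : ℤ) := by
        push_cast
        exact key
      exact Int.natCast_dvd_natCast.1 h2
    exact ⟨z, ⟨h0, hz1'.le, h1⟩, fun u' h3 h4 h5 => uniq z u' h0 hz1'.le h3 h4 h1 h5⟩

end Pool.Agent.Helper269
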