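import Pool.Agent.Helper269.Uni
import Pool.Agent.Helper269.LinS
import Pool.Agent.W123.RP.Mert

set_option autoImplicit false

/-!
# The truncated product of the Goldbach problem, and logarithms
-/

namespace Pool.Agent.Helper269

open Finset

/-- `1` if `q ∣ N`, and `2` otherwise. -/
def nuG (N q : ℕ) : ℕ := if q ∣ N then 1 else 2

theorem prod_totient (n : ℕ) (hn : 1 ≤ n) :
    (n.totient : ℝ) = n * ∏ q ∈ (Icc 1 n).filter Nat.Prime, (if q ∣ n then (1 - 1 / (q : ℝ)) else 1) := by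
  have h1 := Nat.totient_eq_mul_prod_factors n
  have h2 : (n.totient : ℝ) = n * ∏ p ∈ n.primeFactors, (1 - (p : ℝ)⁻¹) := by
    have h3 : ((n.totient : ℚ) : ℝ) = ((n * ∏ p ∈ n.primeFactors, (1 - (p : ℚ)⁻¹) : ℚ) : ℝ) := by rw [h1]
    push_cast at h3
    exact h3
  rw [h2]
  congr 1
  rw [← prod_filter]
  apply prod_congr
  · ext p
    rw [Nat.mem_primeFactors, mem_filter, mem_filter, mem_Icc]
    constructor
    · rintro ⟨h3, h4, h5⟩
      exact ⟨⟨⟨h3.pos, Nat.le_of_dvd (by omega) h4⟩, h3⟩, h4⟩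
    · rintro ⟨⟨⟨h3, h4⟩, h5⟩, h6⟩
      exact ⟨h5, h6, by omega⟩
  · intro p _
    rw [one_div]

theorem prod_upper : ∃ K : ℝ, 0 < K ∧ ∀ n : ℕ, 2 ≤ n →
    n * ∏ q ∈ (Icc 1 n).filter Nat.Prime, (1 - (nuG n q : ℝ) / q) ≤ K * ((n : ℝ) ^ 2 / (n.totient * Real.log n ^ 2)) := by
  obtain ⟨_, C, _, hC, hV⟩ := Pool.Agent.W123.RP.Vz_bounds
  refine ⟨C ^ 2, by positivity, fun n hn => ?_⟩
  have hn0 : (0 : ℝ) < n := by exact_mod_cast (by omega : 0 < n)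
  have hl : 0 < Real.log n := Real.log_pos (by exact_mod_cast (by omega : 1 < n))
  have hφ : (0 : ℝ) < n.totient := by exact_mod_cast Nat.totient_pos.2 (by omega)
  have h1 : (∏ q ∈ (Icc 1 n).filter Nat.Prime, (1 - (nuG n q : ℝ) / q)) *
      ∏ q ∈ (Icc 1 n).filter Nat.Prime, (if q ∣ n then (1 - 1 / (q : ℝ)) else 1) ≤
      (∏ q ∈ (Icc 1 n).filter Nat.Prime, (1 - 1 / (q : ℝ))) ^ 2 := by
    rw [← prod_mul_distrib, ← prod_pow]
    apply prod_le_prod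
    · intro q hq
      have hq2 : (2 : ℝ) ≤ q := by exact_mod_cast (mem_filter.1 hq).2.two_le
      have hq0 : (0 : ℝ) < q := by linarith
      unfold nuG
      split_ifs with h
      · have : 1 / (q : ℝ) ≤ 1 := by rw [div_le_one hq0]; linarith
        push_cast
        exact mul_nonneg (by linarith) (by linarith)
      · have : 2 / (q : ℝ) ≤ 1 := by rw [div_le_one hq0]; exact hq2
        push_cast
        linarith
    · intro q hq
      have hq2 : (2 : ℝ) ≤ q := by exact_mod_cast (mem_filter.1 hq).2.two_le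
      have hq0 : (0 : ℝ) < q := by linarith
      unfold nuG
      split_ifs with h
      · push_cast
        exact le_of_eq (by ring)
      · have h3 : (1 - 1 / (q : ℝ)) ^ 2 = 1 - 2 / q + (1 / (q : ℝ)) ^ 2 := by ring
        rw [h3]
        push_cast
        have := sq_nonneg (1 / (q : ℝ))
        linarith
  have h2 : (∏ q ∈ (Icc 1 n).filter Nat.Prime, (1 - 1 / (q : ℝ))) ^ 2 ≤ (C / Real.log n) ^ 2 := by
    apply pow_le_pow_left₀ _ (hV n hn).2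
    apply prod_nonneg
    intro p hp
    have : (1 : ℝ) ≤ p := by exact_mod_cast (mem_filter.1 hp).2.one_lt.le
    rw [sub_nonneg, div_le_one (by linarith)]
    exact this
  obtain ⟨P, hP⟩ : ∃ P : ℝ, P = ∏ q ∈ (Icc 1 n).filter Nat.Prime, (1 - (nuG n q : ℝ) / q) := ⟨_, rfl⟩
  obtain ⟨T, hT⟩ : ∃ T : ℝ, T = ∏ q ∈ (Icc 1 n).filter Nat.Prime, (if q ∣ n then (1 - 1 / (q : ℝ)) else 1) := ⟨_, rfl⟩
  have h3 := prod_totient n (by omega)
  rw [← hP, ← hT] at h1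
  rw [← hT] at h3
  rw [← hP]
  have h4 : P * T ≤ (C / Real.log n) ^ 2 := h1.trans h2
  have h5 : C ^ 2 * ((n : ℝ) ^ 2 / (n.totient * Real.log n ^ 2)) = (C / Real.log n) ^ 2 * n ^ 2 / n.totient := by
    field_simp
  rw [h5, le_div_iff₀ hφ, h3]
  calc (n : ℝ) * P * (n * T) = P * T * n ^ 2 := by ring
    _ ≤ _ := mul_le_mul_of_nonneg_right h4 (by positivity)

/-- comparison of `n ^ (1 / 4)` with `n / log ^ 2 n` -/
theorem quarter (c : ℝ) (hc : 0 < c) : ∃ n₁ : ℕ, ∀ n : ℕ, n₁ ≤ n → 2 * (n : ℝ) ^ (1 / 4 : ℝ) ≤ c * (n / Real.log n ^ 2) := by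
  obtain ⟨n₁, hn₁⟩ := exists_nat_ge ((128 / c) ^ 2)
  refine ⟨max n₁ 2, fun n hn => ?_⟩
  have h2 : 2 ≤ n := (le_max_right _ _).trans hn
  have hn0 : (0 : ℝ) < n := by exact_mod_cast (by omega : 0 < n)
  have hl : 0 < Real.log n := Real.log_pos (by exact_mod_cast (by omega : 1 < n))
  have h3 : (128 / c) ^ 2 ≤ (n : ℝ) := hn₁.trans (by exact_mod_cast (le_max_left _ _).trans hn)
  have h4 : 128 / c ≤ (n : ℝ) ^ (1 / 2 : ℝ) := by
    rw [← Real.sqrt_eq_rpow]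
    exact Real.le_sqrt_of_sq_le h3
  have h5 : Real.log n ≤ (n : ℝ) ^ (1 / 8 : ℝ) / (1 / 8) := Real.log_le_rpow_div hn0.le (by norm_num)
  have h6 : Real.log n ^ 2 ≤ 64 * (n : ℝ) ^ (1 / 4 : ℝ) := by
    calc Real.log n ^ 2 ≤ ((n : ℝ) ^ (1 / 8 : ℝ) / (1 / 8)) ^ 2 := pow_le_pow_left₀ hl.le h5 _
      _ = 64 * ((n : ℝ) ^ (1 / 8 : ℝ)) ^ 2 := by ring
      _ = _ := by
        rw [← Real.rpow_natCast, ← Real.rpow_mul hn0.le]
        norm_num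
  rw [← mul_div_assoc, le_div_iff₀ (by positivity)]
  have h7 : (0 : ℝ) < (n : ℝ) ^ (1 / 4 : ℝ) := Real.rpow_pos_of_pos hn0 _
  have h8 : (n : ℝ) ^ (1 / 4 : ℝ) * (n : ℝ) ^ (1 / 4 : ℝ) = (n : ℝ) ^ (1 / 2 : ℝ) := by
    rw [← Real.rpow_add hn0]
    norm_num
  have h9 : (n : ℝ) ^ (1 / 2 : ℝ) * (n : ℝ) ^ (1 / 2 : ℝ) = n := by
    rw [← Real.rpow_add hn0]
    norm_num
  have h10 : 128 ≤ c * (n : ℝ) ^ (1 / 2 : ℝ) := by
    rw [div_le_iff₀ hc] at h4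
    linarith
  have h11 : (0 : ℝ) < (n : ℝ) ^ (1 / 2 : ℝ) := Real.rpow_pos_of_pos hn0 _
  calc 2 * (n : ℝ) ^ (1 / 4 : ℝ) * Real.log n ^ 2 ≤ 2 * (n : ℝ) ^ (1 / 4 : ℝ) * (64 * (n : ℝ) ^ (1 / 4 : ℝ)) :=
        mul_le_mul_of_nonneg_left h6 (by positivity)
    _ = 128 * ((n : ℝ) ^ (1 / 4 : ℝ) * (n : ℝ) ^ (1 / 4 : ℝ)) := by ring
    _ = 128 * (n : ℝ) ^ (1 / 2 : ℝ) := by rw [h8]
    _ ≤ (c * (n : ℝ) ^ (1 / 2 : ℝ)) * (n : ℝ) ^ (1 / 2 : ℝ) := mul_le_mul_of_nonneg_right h10 h11.le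
    _ = c * n := by rw [mul_assoc, h9]

/-- absorbing a bounded number of exceptions -/
theorem absorb (n₁ U : ℕ) (ε : ℝ) (hε : 0 < ε) : ∃ N₀ : ℕ, ∀ N : ℕ, N₀ ≤ N → ∀ H : ℝ, (N : ℝ) ^ (1 / 3 + ε) ≤ H →
    H / Real.log N ^ (U + 1) + n₁ ≤ H / Real.log N ^ U := by
  have hlog : Filter.Tendsto (fun N : ℕ => Real.log (N : ℝ)) Filter.atTop Filter.atTop :=
    Real.tendsto_log_atTop.comp tendsto_natCast_atTop_atTop
  have h1 : ∀ᶠ N : ℕ in Filter.atTop, 2 ≤ Real.log N := hlog.eventually_ge_atTop _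
  have h2 : ∀ᶠ x : ℝ in Filter.atTop, ‖Real.log x ^ (U : ℝ)‖ ≤ 1 / (2 * n₁ + 1 : ℝ) * ‖x ^ (1 / 3 : ℝ)‖ :=
    (isLittleO_log_rpow_rpow_atTop (U : ℝ) (by norm_num : (0 : ℝ) < 1 / 3)).bound (by positivity)
  have h2' := (tendsto_natCast_atTop_atTop (R := ℝ)).eventually h2
  obtain ⟨N₁, hN₁⟩ := Filter.eventually_atTop.1 (h1.and h2')
  refine ⟨max N₁ 1, fun N hN H hH => ?_⟩
  obtain ⟨g1, g2⟩ := hN₁ N ((le_max_left _ _).trans hN)
  have hN1 : (1 : ℝ) ≤ N := by exact_mod_cast (le_max_right _ _).trans hN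
  have hl : 0 < Real.log N := by linarith
  have g3 : Real.log N ^ U ≤ 1 / (2 * n₁ + 1 : ℝ) * (N : ℝ) ^ (1 / 3 : ℝ) := by
    rw [Real.rpow_natCast, Real.norm_eq_abs, Real.norm_eq_abs, abs_of_nonneg (by positivity),
      abs_of_nonneg (by positivity)] at g2
    exact g2
  have g4 : (N : ℝ) ^ (1 / 3 : ℝ) ≤ H :=
    (Real.rpow_le_rpow_of_exponent_le hN1 (by linarith)).trans hH
  have g5 : (2 * n₁ : ℝ) * Real.log N ^ U ≤ H := by
    have h3 : (2 * n₁ + 1 : ℝ) * Real.log N ^ U ≤ (N : ℝ) ^ (1 / 3 : ℝ) := by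
      rw [one_div, ← div_eq_inv_mul, le_div_iff₀ (by positivity)] at g3
      linarith
    have h4 : 0 ≤ Real.log N ^ U := by positivity
    nlinarith
  have hH0 : 0 ≤ H := le_trans (by positivity) g4
  have g6 : H / Real.log N ^ (U + 1) ≤ H / Real.log N ^ U / 2 := by
    rw [pow_succ, ← div_div]
    exact div_le_div_of_nonneg_left (by positivity) (by norm_num) g1
  have g7 : (n₁ : ℝ) ≤ H / Real.log N ^ U / 2 := by
    rw [div_div, le_div_iff₀ (by positivity)]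
    linarith
  linarith

end Pool.Agent.Helper269
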