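import Pool.Agent.helper24_UT.Ch9

set_option autoImplicit false

/-!
# Prime `k`-tuples in almost all intervals of length `X ^ (1 / 3 + ε)`, for almost all shifts, in all progressions

Let `k ≥ 1`, `ε > 0` and `A` be fixed, let `X` be large and `X ^ (1 / 3 + ε) ≤ K ≤ X`. For all but at most
`X ^ (k + 1) / (log X) ^ A` of the pairs of an integer `x ≤ X` and a vector of shifts `1 ≤ a_1, …, a_k ≤ X` the SHORT interval
`(x, x + K]` contains the number of integers `n` with all `n + a_i` prime which Hardy and Littlewood predict, and these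
integers are equidistributed in the residue classes: the number of the `n` with `x < n ≤ x + y`, `n ≡ r (mod q)` and all
`n + a_i` prime is `(𝔖(a) / φ_a(q)) ∑_{x < n ≤ x + y} ∏ 1 / log (n + a_i)` up to an error whose squares, summed over ALL moduli
`q ≤ Q = K exp (- B (log log X) ^ 2)` and over all the `φ_a(q)` residue classes `r` modulo `q` with
`(r + a_1) ⋯ (r + a_k)` coprime to `q`, have the sum at most `K ^ 2 / (log X) ^ A`; the length `y = y(q, r) ≤ K` may be
chosen in every class as unfavourably as possible. (If the `n + a_i` are called `N, N + b_1, …, N + b_{k-1}`, the shifts of the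
question are the differences `b_i = a_{i+1} - a_1`.)

Proof. The differences `D` of the primes and their sieve model satisfy
`∑_{x ≤ X} |∑_{x < m ≤ x + K} D(m) e(m α)| ^ 2 ≤ X K ^ 2 / (log X) ^ A` uniformly in `α`, for `K ≥ X ^ (1 / 3 + ε)`
(`Pool.Agent.helper24_UT.Ch.t_MK`; identity of Heath-Brown, Type II sums and divisor sums on the minor arcs, mean values of
Dirichlet polynomials, van der Corput's estimate and a bound of the type of Vinogradov and Korobov on the major arcs; the
method of Mikawa). This bounds the correlations of `D` over long ranges at almost all distances `≤ K` (Gallagher's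
lemma), and with arbitrary weights `w` the sums `∑_{x < n ≤ x + K, n ≡ r (q)} w(n) D(n + a)` in mean square over `x`, `a`, `r`
and `q` (`t_SUP`). The primes are replaced by the model in one factor after the other.
-/

namespace Pool.Agent.Helper269.SW24

open Finset

variable {k : ℕ}

/-- the number `ν_p` of the distinct residue classes modulo `p` occupied by the `a_i` -/
def nu (a : Fin k → ℕ) (p : ℕ) : ℕ := (univ.image fun i => a i % p).card

/-- the factor of the singular series at the prime `p` -/
noncomputable def factor (a : Fin k → ℕ) (p : Nat.Primes) : ℝ :=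
  (1 - (nu a p : ℝ) / ((p : ℕ) : ℝ)) / (1 - 1 / ((p : ℕ) : ℝ)) ^ k

/-- the singular series `𝔖(a_1, …, a_k)` -/
noncomputable def series (a : Fin k → ℕ) : ℝ := ∏' p : Nat.Primes, factor a p

/-- the number of the `1 ≤ n ≤ y` with `n ≡ r (mod q)` for which all `n + a_i` are prime (for `r < q`) -/
def count (a : Fin k → ℕ) (q r y : ℕ) : ℕ :=
  ((Icc 1 y).filter (fun n => n % q = r ∧ ∀ i, (n + a i).Prime)).card

/-- `∑_{n ≤ y} ∏_i 1 / log (n + a_i)` -/
noncomputable def logSum (a : Fin k → ℕ) (y : ℕ) : ℝ := ∑ n ∈ Icc 1 y, ∏ i, 1 / Real.log ((n + a i : ℕ) : ℝ)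

/-- the residues `r` modulo `q` for which all `r + a_i` are coprime to `q` -/
def residues (a : Fin k → ℕ) (q : ℕ) : Finset ℕ := (range q).filter (fun r => ∀ i, (r + a i).Coprime q)

/-- The `a_i` are distinct, the singular series converges, it is at least `c` if there is no local obstruction, and for all
`Q ≤ K exp (- B (log log X) ^ 2)` and all choices of the lengths `y q r ≤ K` the sum, over all `q ≤ Q` and all residues `r` of
`residues a q`, of the squares of `count - (𝔖 / φ_a(q)) logSum`, both taken over `x < n ≤ x + y q r`, is at most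
`K ^ 2 / (log X) ^ A`. -/
def Holds (c : ℝ) (A B X K x : ℕ) (a : Fin k → ℕ) : Prop :=
  Function.Injective a ∧ Multipliable (factor a) ∧ ((∀ p : ℕ, p.Prime → nu a p < p) → c ≤ series a) ∧
    ∀ Q : ℕ, (Q : ℝ) ≤ K * Real.exp (-(B * Real.log (Real.log X) ^ 2)) → ∀ y : ℕ → ℕ → ℕ, (∀ q r, y q r ≤ K) →
      ∑ q ∈ Icc 1 Q, ∑ r ∈ residues a q,
        (((count a q r (x + y q r) : ℝ) - count a q r x) -
          series a / (residues a q).card * (logSum a (x + y q r) - logSum a x)) ^ 2 ≤ (K : ℝ) ^ 2 / (Real.log X) ^ A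

theorem nu_eq (a : Fin k → ℕ) (p : ℕ) (hp : 1 ≤ p) :
    Pool.Agent.helper24_UT.nuf (fun _ => 1) (fun i => (a i : ℤ)) p = nu a p := by
  classical
  unfold Pool.Agent.helper24_UT.nuf nu
  have hp0 : (0 : ℤ) < (p : ℤ) := by exact_mod_cast hp
  have hset : ((range p).filter (fun t : ℕ => ∃ i, (p : ℤ) ∣ (1 : ℤ) * t + a i)) =
      (univ.image fun i => a i % p).image (fun x => (p - x) % p) := by
    ext t
    rw [mem_filter, mem_range, mem_image]
    constructor
    · rintro ⟨ht, i, hi⟩
      refine ⟨a i % p, mem_image_of_mem _ (mem_univ i), ?_⟩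
      have h1 : p ∣ t + a i := by
        have h2 : (p : ℤ) ∣ ((t + a i : ℕ) : ℤ) := by push_cast; rw [one_mul] at hi; exact hi
        exact_mod_cast h2
      have h3 : p ∣ t + a i % p := by
        have h4 : t + a i = (t + a i % p) + p * (a i / p) := by
          have := Nat.mod_add_div (a i) p
          omega
        rw [h4] at h1
        exact (Nat.dvd_add_left (Dvd.intro _ rfl)).1 h1
      have h5 : a i % p < p := Nat.mod_lt _ hp
      obtain ⟨c, hc⟩ := h3
      have hc2 : c < 2 := by
        by_contra hcon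
        have : p * 2 ≤ p * c := Nat.mul_le_mul_left _ (by omega)
        omega
      interval_cases c
      · have : a i % p = 0 := by omega
        rw [this, Nat.sub_zero, Nat.mod_self]
        omega
      · have : p - a i % p = t := by omega
        rw [this, Nat.mod_eq_of_lt ht]
    · rintro ⟨x, hx, rfl⟩
      rw [mem_image] at hx
      obtain ⟨i, _, rfl⟩ := hx
      have h5 : a i % p < p := Nat.mod_lt _ hp
      refine ⟨Nat.mod_lt _ hp, i, ?_⟩
      rw [one_mul]
      have h1 : (((p - a i % p) % p : ℕ) : ℤ) + a i = ((((p - a i % p) % p + a i : ℕ)) : ℤ) := by push_cast; ring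
      rw [h1]
      have h2 : p ∣ (p - a i % p) % p + a i := by
        have h3 : ((p - a i % p) % p + a i) % p = 0 := by
          rw [Nat.mod_add_mod]
          have h4 : p - a i % p + a i = p + p * (a i / p) := by
            have := Nat.mod_add_div (a i) p
            omega
          rw [h4, Nat.add_mul_mod_self_left, Nat.mod_self]
        exact Nat.dvd_of_mod_eq_zero h3
      exact_mod_cast h2
  have hcard : ((univ.image fun i => a i % p).image (fun x => (p - x) % p)).card = (univ.image fun i => a i % p).card := by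
    apply card_image_of_injOn
    intro x hx y hy hxy
    rw [mem_coe, mem_image] at hx hy
    obtain ⟨i, _, rfl⟩ := hx
    obtain ⟨j, _, rfl⟩ := hy
    have h5 : a i % p < p := Nat.mod_lt _ hp
    have h6 : a j % p < p := Nat.mod_lt _ hp
    have hxy' : (p - a i % p) % p = (p - a j % p) % p := hxy
    generalize a i % p = u at *
    generalize a j % p = v at *
    rcases Nat.eq_zero_or_pos u with h7 | h7 <;> rcases Nat.eq_zero_or_pos v with h8 | h8
    · rw [h7, h8]
    · rw [h7, Nat.sub_zero, Nat.mod_self, Nat.mod_eq_of_lt (by omega)] at hxy'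
      omega
    · rw [h8, Nat.sub_zero, Nat.mod_self, Nat.mod_eq_of_lt (by omega)] at hxy'
      omega
    · rw [Nat.mod_eq_of_lt (by omega), Nat.mod_eq_of_lt (by omega)] at hxy'
      omega
  rw [← hcard, ← hset]

theorem series_eq (a : Fin k → ℕ) :
    Pool.Agent.helper24_UT.sers (fun _ => 1) (fun i => (a i : ℤ)) = series a := by
  unfold Pool.Agent.helper24_UT.sers series factor
  congr 1
  funext p
  rw [nu_eq a p p.2.one_le]

theorem count_eq (a : Fin k → ℕ) (q r y : ℕ) : Pool.Agent.helper24_UT.cntT a q r y = count a q r y := by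
  classical
  unfold Pool.Agent.helper24_UT.cntT count
  congr 1

theorem phi_eq (a : Fin k → ℕ) (q : ℕ) :
    Pool.Agent.helper24_UT.phf (fun _ => 1) (fun i => (a i : ℤ)) q = (residues a q).card := by
  classical
  unfold Pool.Agent.helper24_UT.phf residues
  congr 1
  apply filter_congr
  intro t _
  apply forall_congr'
  intro i
  rw [one_mul]
  have h : ((t : ℤ) + (a i : ℤ)) = ((t + a i : ℕ) : ℤ) := by push_cast; ring
  rw [h, Int.gcd_natCast_natCast]

open Classical in
/-- the number of the pairs of `x ≤ X` and a vector of shifts `a_i ≤ X` for which `Holds` fails -/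
noncomputable def exceptions (k : ℕ) (c : ℝ) (A B X K : ℕ) : ℕ :=
  ((Icc 1 X ×ˢ Fintype.piFinset (fun _ : Fin k => Icc 1 X)).filter (fun v => ¬ Holds c A B X K v.1 v.2)).card

/-- **Prime tuples in almost all short intervals, for almost all shifts, in all progressions.** -/
theorem result (k : ℕ) (hk : 1 ≤ k) : ∃ c : ℝ, 0 < c ∧ ∀ (ε : ℝ) (A : ℕ), 0 < ε → ∃ B X₀ : ℕ, ∀ X : ℕ, X₀ ≤ X →
    ∀ K : ℕ, (X : ℝ) ^ (1 / 3 + ε) ≤ K → K ≤ X → (exceptions k c A B X K : ℝ) ≤ (X : ℝ) ^ (k + 1) / (Real.log X) ^ A := by
  classical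
  obtain ⟨c, hc, hS⟩ := Pool.Agent.helper24_UT.Slb.main k
  refine ⟨c, hc, fun ε A hε => ?_⟩
  obtain ⟨e, he⟩ := exists_nat_gt (1 / ε)
  have he1 : 1 ≤ e := by
    have h1 : 0 < 1 / ε := by positivity
    have h2 : (0 : ℝ) < e := h1.trans he
    exact_mod_cast h2
  have he0 : (0 : ℝ) < e := by exact_mod_cast he1
  have hle : 1 / (e : ℝ) ≤ ε := by
    rw [div_le_iff₀ he0]
    rw [div_lt_iff₀ hε] at he
    linarith
  obtain ⟨B, X₀, h⟩ := Pool.Agent.helper24_UT.Ch.t_R14 k e A hk he1
  refine ⟨B, max X₀ 1, fun X hX K hK1 hK2 => ?_⟩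
  have hX1 : (1 : ℝ) ≤ X := by exact_mod_cast (le_max_right _ _).trans hX
  have hpow : (X : ℝ) ^ (1 / 3 + 1 / e : ℝ) ≤ K := by
    refine le_trans ?_ hK1
    apply Real.rpow_le_rpow_of_exponent_le hX1
    linarith
  refine le_trans ?_ (h X ((le_max_left _ _).trans hX) K hpow hK2)
  unfold exceptions
  refine Nat.cast_le.2 (card_le_card fun v hv => ?_)
  have hv := mem_filter.1 hv
  refine mem_filter.2 ⟨hv.1, fun hg => hv.2 ?_⟩
  obtain ⟨hinj, hg⟩ := hg
  set a := v.2 with ha
  have hne : ∀ i j : Fin k, i ≠ j → (1 : ℤ) * (a j : ℤ) ≠ 1 * (a i : ℤ) := by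
    intro i j hij heq
    rw [one_mul, one_mul] at heq
    exact hij (hinj (by exact_mod_cast heq.symm))
  obtain ⟨hm, hl⟩ := hS (fun _ => 1) (fun i => (a i : ℤ)) (fun _ => Or.inl rfl) hne
  refine ⟨hinj, ?_, ?_, ?_⟩
  · convert hm using 2 with p
    unfold factor
    rw [nu_eq a p p.2.one_le]
  · intro hp
    rw [← series_eq]
    apply hl
    intro p hp'
    rw [nu_eq a p hp'.one_le]
    exact hp p hp'
  · intro Q hQ y hy
    have h3 := hg Q hQ y hy
    rw [series_eq] at h3
    simp only [phi_eq, count_eq] at h3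
    exact h3

end Pool.Agent.Helper269.SW24
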