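import Pool.Agent.helper24_UT.Slb
import Pool.Agent.Helper269.SW24
import Pool.Agent.W123.RP.Mert

set_option autoImplicit false

/-!
# The singular series of a tuple and its truncated product
-/

namespace Pool.Agent.Helper269

open Finset
open Pool.Agent.Helper269.SW24 (nu factor series count logSum residues Holds)
open Pool.Agent.helper24_UT.Slb (bb bb_pos bb_mult bb_tprod_pos bb_le one_sub_le den_pos)

theorem bb_le_one (k : ℕ) (p : Nat.Primes) : bb k p ≤ 1 := by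
  have hp' : (2 : ℝ) ≤ (p : ℕ) := by exact_mod_cast p.2.two_le
  have hp0 : (0 : ℝ) < (p : ℕ) := by linarith
  unfold bb
  split_ifs with h
  · rw [div_le_one hp0]
    linarith
  · rw [div_le_one (den_pos k p).1]
    have h1 : 1 / ((p : ℕ) : ℝ) ≤ 1 := by rw [div_le_one hp0]; linarith
    have h2 := one_sub_le (1 / ((p : ℕ) : ℝ)) h1 k
    have h3 : (k : ℝ) / ((p : ℕ) : ℝ) = k * (1 / ((p : ℕ) : ℝ)) := by ring
    rw [h3]
    exact h2

theorem tprod_le (k : ℕ) (s : Finset Nat.Primes) : ∏' p, bb k p ≤ ∏ p ∈ s, bb k p := by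
  refine le_of_tendsto (bb_mult k).hasProd ?_
  filter_upwards [Filter.eventually_ge_atTop s] with t ht
  rw [← prod_sdiff ht]
  refine mul_le_of_le_one_left (prod_nonneg fun p _ => (bb_pos k p).le) ?_
  exact prod_le_one (fun p _ => (bb_pos k p).le) (fun p _ => bb_le_one k p)

theorem bb_fac {k : ℕ} (a : Fin k → ℕ) (p : Nat.Primes) (h : nu a p < p) : bb k p ≤ factor a p := by
  have h1 := bb_le (fun _ : Fin k => (1 : ℤ)) (fun i => (a i : ℤ)) (fun _ => Or.inl rfl) p (by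
    rw [SW24.nu_eq a p p.2.one_le]
    exact h)
  rw [SW24.nu_eq a p p.2.one_le] at h1
  exact h1

theorem series_part {k : ℕ} (a : Fin k → ℕ) (hm : Multipliable (factor a)) (h : ∀ p : ℕ, p.Prime → nu a p < p)
    (T : Finset Nat.Primes) : (∏' p, bb k p) * ∏ p ∈ T, factor a p ≤ series a := by
  refine ge_of_tendsto hm.hasProd ?_
  filter_upwards [Filter.eventually_ge_atTop T] with t ht
  rw [← prod_sdiff ht]
  apply mul_le_mul_of_nonneg_right _ (prod_nonneg fun p _ => (bb_pos k p).le.trans (bb_fac a p (h p p.2)))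
  refine (tprod_le k (t \ T)).trans ?_
  exact prod_le_prod (fun p _ => (bb_pos k p).le) (fun p _ => bb_fac a p (h p p.2))

/-- **The truncated product.** -/
theorem series_low (k : ℕ) : ∃ c : ℝ, 0 < c ∧ ∀ a : Fin k → ℕ, Multipliable (factor a) →
    (∀ p : ℕ, p.Prime → nu a p < p) → ∀ K : ℕ, 2 ≤ K →
      c * Real.log K ^ k * ∏ q ∈ (Icc 1 K).filter Nat.Prime, (1 - (nu a q : ℝ) / q) ≤ series a := by
  obtain ⟨_, C, _, hC, hV⟩ := Pool.Agent.W123.RP.Vz_bounds
  have hb := bb_tprod_pos k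
  refine ⟨(∏' p, bb k p) / C ^ k, by positivity, fun a hm h K hK => ?_⟩
  have hl : 0 < Real.log K := Real.log_pos (by exact_mod_cast (by omega : 1 < K))
  obtain ⟨T, hT⟩ : ∃ T : Finset Nat.Primes, T = ((Icc 1 K).filter Nat.Prime).subtype Nat.Prime := ⟨_, rfl⟩
  have h1 := series_part a hm h T
  have h2 : ∏ p ∈ T, factor a p =
      (∏ q ∈ (Icc 1 K).filter Nat.Prime, (1 - (nu a q : ℝ) / q)) / (Pool.Agent.H373R2.T7.Vz K) ^ k := by
    rw [hT]
    unfold factor Pool.Agent.H373R2.T7.Vz Pool.Agent.H373R2.T7.pz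
    rw [← prod_pow, ← prod_div_distrib]
    exact prod_subtype_of_mem (fun q : ℕ => (1 - (nu a q : ℝ) / (q : ℝ)) / (1 - 1 / (q : ℝ)) ^ k)
      (fun q hq => (mem_filter.1 hq).2)
  rw [h2] at h1
  refine le_trans ?_ h1
  obtain ⟨P, hP⟩ : ∃ P : ℝ, P = ∏ q ∈ (Icc 1 K).filter Nat.Prime, (1 - (nu a q : ℝ) / q) := ⟨_, rfl⟩
  rw [← hP]
  have hP0 : 0 ≤ P := by
    rw [hP]
    apply prod_nonneg
    intro q hq
    have hq0 : (0 : ℝ) < q := by exact_mod_cast (mem_filter.1 hq).2.pos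
    rw [sub_nonneg, div_le_one hq0]
    exact_mod_cast (h q (mem_filter.1 hq).2).le
  have hV0 : 0 < Pool.Agent.H373R2.T7.Vz K := by
    unfold Pool.Agent.H373R2.T7.Vz Pool.Agent.H373R2.T7.pz
    apply prod_pos
    intro p hp
    have : (1 : ℝ) < p := by exact_mod_cast (mem_filter.1 hp).2.one_lt
    rw [sub_pos, div_lt_one (by linarith)]
    exact this
  have h3 : Pool.Agent.H373R2.T7.Vz K ^ k ≤ (C / Real.log K) ^ k := pow_le_pow_left₀ hV0.le (hV K hK).2 k
  calc (∏' p, bb k p) / C ^ k * Real.log K ^ k * P = (∏' p, bb k p) * (P / (C / Real.log K) ^ k) := by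
        rw [div_pow]
        field_simp
    _ ≤ (∏' p, bb k p) * (P / Pool.Agent.H373R2.T7.Vz K ^ k) := by
        apply mul_le_mul_of_nonneg_left _ hb.le
        exact div_le_div_of_nonneg_left hP0 (by positivity) h3

/-- the sum of the reciprocals of the logarithms in a window -/
theorem logSum_low {k : ℕ} (a : Fin k → ℕ) {X K x : ℕ} (hX : 3 ≤ X) (hK : K ≤ X) (hx : x ≤ X)
    (ha : ∀ i, 1 ≤ a i ∧ a i ≤ X) :
    (K : ℝ) / (2 * Real.log X) ^ k ≤ logSum a (x + K) - logSum a x := by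
  have hX0 : (0 : ℝ) < X := by exact_mod_cast (by omega : 0 < X)
  have hl : 0 < Real.log X := Real.log_pos (by exact_mod_cast (by omega : 1 < X))
  have h1 : logSum a (x + K) - logSum a x = ∑ n ∈ Ioc x (x + K), ∏ i, 1 / Real.log ((n + a i : ℕ) : ℝ) := by
    unfold logSum
    have hsub : Icc 1 x ⊆ Icc 1 (x + K) := Icc_subset_Icc_right (by omega)
    rw [← sum_sdiff hsub, add_sub_cancel_right]
    apply sum_congr _ (fun _ _ => rfl)
    ext n
    rw [mem_sdiff, mem_Icc, mem_Icc, mem_Ioc]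
    omega
  rw [h1]
  have h2 : ∀ n ∈ Ioc x (x + K), 1 / (2 * Real.log X) ^ k ≤ ∏ i, 1 / Real.log ((n + a i : ℕ) : ℝ) := by
    intro n hn
    rw [mem_Ioc] at hn
    have e : 1 / (2 * Real.log X) ^ k = ∏ _i : Fin k, 1 / (2 * Real.log X) := by
      rw [prod_const, card_univ, Fintype.card_fin, one_div_pow]
    rw [e]
    apply prod_le_prod (fun i _ => by positivity)
    intro i _
    obtain ⟨h3, h4⟩ := ha i
    have h5 : 0 < Real.log ((n + a i : ℕ) : ℝ) := Real.log_pos (by exact_mod_cast (by omega : 1 < n + a i))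
    apply one_div_le_one_div_of_le h5
    have h6 : ((n + a i : ℕ) : ℝ) ≤ (X : ℝ) ^ 2 := by
      have h7 : n + a i ≤ 3 * X := by omega
      have h8 : 3 * X ≤ X * X := Nat.mul_le_mul_right _ hX
      have h9 : n + a i ≤ X ^ 2 := by rw [pow_two]; exact h7.trans h8
      exact_mod_cast h9
    have h7 := Real.log_le_log (by exact_mod_cast (by omega : 0 < n + a i)) h6
    rw [Real.log_pow] at h7
    exact_mod_cast h7
  have h3 := Finset.card_nsmul_le_sum _ _ _ h2
  rw [Nat.card_Ioc, nsmul_eq_mul] at h3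
  have h4 : x + K - x = K := by omega
  rw [h4] at h3
  calc (K : ℝ) / (2 * Real.log X) ^ k = K * (1 / (2 * Real.log X) ^ k) := by ring
    _ ≤ _ := h3

/-- three properties of large numbers -/
theorem largeK (B : ℕ) (L : ℝ) : ∃ X₁ : ℕ, ∀ X : ℕ, X₁ ≤ X → 3 ≤ X ∧ L ≤ Real.log X ∧
    1 ≤ (X : ℝ) ^ (1 / 3 : ℝ) * Real.exp (-(B * Real.log (Real.log X) ^ 2)) := by
  have hlog : Filter.Tendsto (fun N : ℕ => Real.log (N : ℝ)) Filter.atTop Filter.atTop :=
    Real.tendsto_log_atTop.comp tendsto_natCast_atTop_atTop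
  have h1 : ∀ᶠ N : ℕ in Filter.atTop, max L 1 ≤ Real.log N := hlog.eventually_ge_atTop _
  have h3 : ∀ᶠ x : ℝ in Filter.atTop, ‖Real.log x ^ 2‖ ≤ 1 / (3 * B + 1 : ℝ) * ‖x‖ :=
    (Real.isLittleO_pow_log_id_atTop (n := 2)).bound (by positivity)
  have h3' := hlog.eventually h3
  obtain ⟨N₁, hN₁⟩ := Filter.eventually_atTop.1 (h1.and h3')
  refine ⟨max N₁ 3, fun X hX => ?_⟩
  obtain ⟨g1, g3⟩ := hN₁ X ((le_max_left _ _).trans hX)
  have hX3 : 3 ≤ X := (le_max_right _ _).trans hX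
  have hX0 : (0 : ℝ) < X := by exact_mod_cast (by omega : 0 < X)
  refine ⟨hX3, (le_max_left _ _).trans g1, ?_⟩
  have hl1 : 1 ≤ Real.log X := (le_max_right _ _).trans g1
  rw [Real.norm_eq_abs, Real.norm_eq_abs, abs_of_pos (by linarith : (0 : ℝ) < Real.log X)] at g3
  have g4 := (le_abs_self _).trans g3
  have hB : (0 : ℝ) ≤ B := Nat.cast_nonneg _
  rw [div_mul_eq_mul_div, one_mul, le_div_iff₀ (by positivity)] at g4
  have g5 : B * Real.log (Real.log X) ^ 2 ≤ Real.log X * (1 / 3) := by nlinarith [sq_nonneg (Real.log (Real.log X))]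
  rw [Real.rpow_def_of_pos hX0, ← Real.exp_add]
  apply Real.one_le_exp
  linarith

/-- **The lower bound in a window.** -/
theorem window_low (s : ℕ) (c : ℝ) (hc : 0 < c) : ∃ δ₀ : ℝ, 0 < δ₀ ∧ ∀ U B : ℕ, ∃ X₁ : ℕ, ∀ X K x : ℕ, X₁ ≤ X →
    (X : ℝ) ^ (1 / 3 : ℝ) ≤ K → K ≤ X → x ≤ X → ∀ a : Fin s → ℕ, (∀ i, 1 ≤ a i ∧ a i ≤ X) →
      (∀ p : ℕ, p.Prime → nu a p < p) → Holds c (U + 2 * (s + 1)) B X K x a →
      δ₀ * (K * ∏ q ∈ (Icc 1 K).filter Nat.Prime, (1 - (nu a q : ℝ) / q)) ≤ (count a 1 0 (x + K) : ℝ) - count a 1 0 x := by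
  obtain ⟨c₁, hc₁, hser⟩ := series_low s
  refine ⟨c₁ / (2 * 6 ^ s), by positivity, fun U B => ?_⟩
  obtain ⟨X₁, hX₁⟩ := largeK B (max 6 (2 * 2 ^ s / c))
  refine ⟨X₁, fun X K x hX hK hKX hxX a ha hadm hH => ?_⟩
  obtain ⟨hX3, hL, hexp⟩ := hX₁ X hX
  have hX0 : (0 : ℝ) < X := by exact_mod_cast (by omega : 0 < X)
  obtain ⟨L, hLd⟩ : ∃ L : ℝ, L = Real.log X := ⟨_, rfl⟩
  have hL6 : 6 ≤ L := by rw [hLd]; exact (le_max_left _ _).trans hL
  have hLc : 2 * 2 ^ s / c ≤ L := by rw [hLd]; exact (le_max_right _ _).trans hL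
  have hK0 : (0 : ℝ) < K := lt_of_lt_of_le (Real.rpow_pos_of_pos hX0 _) hK
  have hlK : L / 3 ≤ Real.log K := by
    have h1 := Real.log_le_log (Real.rpow_pos_of_pos hX0 (1 / 3 : ℝ)) hK
    rw [Real.log_rpow hX0, ← hLd] at h1
    linarith
  have hK2 : 2 ≤ K := by
    by_contra hcon
    have h1 : (K : ℝ) ≤ 1 := by exact_mod_cast (by omega : K ≤ 1)
    have h2 := Real.log_le_log hK0 h1
    rw [Real.log_one] at h2
    linarith
  obtain ⟨hinj, hmul, hcs, hsum⟩ := hH
  have hcs' := hcs hadm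
  have h3 := hsum 1 (by
    rw [Nat.cast_one]
    refine hexp.trans (mul_le_mul_of_nonneg_right hK (Real.exp_pos _).le)) (fun _ _ => K) (fun _ _ => le_rfl)
  have hres : residues a 1 = {0} := by
    ext r
    unfold SW24.residues
    rw [mem_filter, mem_range, mem_singleton]
    constructor
    · rintro ⟨h4, _⟩
      omega
    · rintro rfl
      exact ⟨by omega, fun i => Nat.coprime_one_right _⟩
  rw [Icc_self, sum_singleton, hres, sum_singleton, card_singleton, Nat.cast_one, div_one, ← hLd] at h3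
  have h4 : |((count a 1 0 (x + K) : ℝ) - count a 1 0 x) - series a * (logSum a (x + K) - logSum a x)| ≤
      K / L ^ (s + 1) := by
    apply abs_le_of_sq_le_sq _ (by positivity)
    refine h3.trans ?_
    rw [div_pow, ← pow_mul]
    apply div_le_div_of_nonneg_left (by positivity) (by positivity)
    apply pow_le_pow_right₀ (by linarith)
    omega
  have hlow := logSum_low a hX3 hKX hxX ha
  rw [← hLd] at hlow
  obtain ⟨Δ, hΔ⟩ : ∃ Δ : ℝ, Δ = logSum a (x + K) - logSum a x := ⟨_, rfl⟩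
  rw [← hΔ] at h4 hlow
  have hser' := hser a hmul hadm K hK2
  obtain ⟨P, hP⟩ : ∃ P : ℝ, P = ∏ q ∈ (Icc 1 K).filter Nat.Prime, (1 - (nu a q : ℝ) / q) := ⟨_, rfl⟩
  rw [← hP] at hser' ⊢
  have hP0 : 0 ≤ P := by
    rw [hP]
    apply prod_nonneg
    intro q hq
    have hq0 : (0 : ℝ) < q := by exact_mod_cast (mem_filter.1 hq).2.pos
    rw [sub_nonneg, div_le_one hq0]
    exact_mod_cast (hadm q (mem_filter.1 hq).2).le
  have hL0 : 0 < L := by linarith
  have hden : 0 < (2 * L) ^ s := by positivity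
  have hKd : 0 < (K : ℝ) / (2 * L) ^ s := by positivity
  have hser0 : 0 < series a := lt_of_lt_of_le hc hcs'
  -- the error term
  have h5 : (K : ℝ) / L ^ (s + 1) ≤ series a * Δ / 2 := by
    have h6 : c * (K / (2 * L) ^ s) ≤ series a * Δ := mul_le_mul hcs' hlow hKd.le hser0.le
    refine le_trans ?_ (div_le_div_of_nonneg_right h6 (by norm_num))
    rw [mul_pow]
    have h7 : 2 * 2 ^ s ≤ c * L := by
      rw [div_le_iff₀ hc] at hLc
      linarith
    rw [pow_succ]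
    have h8 : (0 : ℝ) < 2 ^ s := by positivity
    have h9 : 0 < L ^ s := by positivity
    rw [← mul_div_assoc, div_div, div_le_div_iff₀ (by positivity) (by positivity)]
    calc (K : ℝ) * (2 ^ s * L ^ s * 2) = (K * L ^ s) * (2 * 2 ^ s) := by ring
      _ ≤ (K * L ^ s) * (c * L) := mul_le_mul_of_nonneg_left h7 (by positivity)
      _ = c * K * (L ^ s * L) := by ring
  rw [abs_le] at h4
  have h6 : series a * Δ / 2 ≤ (count a 1 0 (x + K) : ℝ) - count a 1 0 x := by linarith [h4.1]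
  refine le_trans ?_ h6
  have h7 : (L / 3) ^ s ≤ Real.log K ^ s := pow_le_pow_left₀ (by positivity) hlK s
  have h8 : c₁ * (L / 3) ^ s * P ≤ series a := by
    refine le_trans ?_ hser'
    apply mul_le_mul_of_nonneg_right _ hP0
    exact mul_le_mul_of_nonneg_left h7 hc₁.le
  have h9 : (c₁ * (L / 3) ^ s * P) * (K / (2 * L) ^ s) ≤ series a * Δ := mul_le_mul h8 hlow hKd.le hser0.le
  have h10 : (c₁ * (L / 3) ^ s * P) * (K / (2 * L) ^ s) = c₁ / 6 ^ s * (K * P) := by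
    have h11 : (6 : ℝ) ^ s = 2 ^ s * 3 ^ s := by rw [← mul_pow]; norm_num
    rw [div_pow, mul_pow, h11]
    field_simp
  rw [h10] at h9
  calc c₁ / (2 * 6 ^ s) * (K * P) = (c₁ / 6 ^ s * (K * P)) / 2 := by
        field_simp
    _ ≤ _ := div_le_div_of_nonneg_right h9 (by norm_num)

end Pool.Agent.Helper269
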