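import Pool.Agent.X69.Ric.PatC
import Pool.Agent.X26.MC.Poly

set_option autoImplicit false

/-!
# Common patterns in sets of integers with rough values, uniformly in the polynomials
-/

namespace Pool.Agent.Helper269

open Filter Finset Polynomial
open Pool.Agent.X26.GP (Zf NF om PX PX_eq pat Alm)
open Pool.Agent.X69.Ric (dt omR prR cnR mem_box PX_prR GoodR om_omR)

/-- the number of the residues `u` modulo `q` with `R q u` -/
noncomputable def nuR (R : ℕ → ℕ → Prop) (q : ℕ) : ℕ := {u : ℕ | 1 ≤ u ∧ u ≤ q ∧ R q u}.ncard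

variable {g : ℕ}

theorem Zf_nuR (F : Fin g → ℤ[X]) (R : ℕ → ℕ → Prop)
    (hR : ∀ q n : ℕ, 1 ≤ n → (R q n ↔ ∃ i, (q : ℤ) ∣ (F i).eval (n : ℤ))) {q : ℕ} (hq : q.Prime) :
    (Zf (∏ i, F i) q).card = nuR R q := by
  have h := om_omR F R hR (m := 0) (fun _ => 0) {fun _ => 0} hq
  have e1 : om (∏ i, F i) (m := 0) (fun _ => 0) {fun _ => 0} q = (Zf (∏ i, F i) q).card := by
    unfold om Zf
    simp
  have e2 : omR R (m := 0) (fun _ => 0) {fun _ => 0} q = nuR R q := by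
    unfold omR nuR dt
    simp
  rw [← e1, ← e2]
  exact h

/-- **Common patterns**, uniformly. -/
theorem uni_common (M m k r : ℕ) (κ δ : ℝ) (hκ : 0 < κ) (hκ1 : κ ≤ 1) (hδ : 0 < δ) : ∃ c : ℝ, 0 < c ∧
    ∃ B X₀ : ℕ, ∀ X D : ℕ, X₀ ≤ X → Real.log X ^ B ≤ D → D ≤ X →
    ∀ (F : Fin M → Fin g → ℤ[X]) (R : Fin M → ℕ → ℕ → Prop), (∀ j, (∏ i, F j i).natDegree ≤ r) →
    (∀ j, NF (∏ i, F j i)) → (∀ j, ∀ q n : ℕ, 1 ≤ n → (R j q n ↔ ∃ i, (q : ℤ) ∣ (F j i).eval (n : ℤ))) →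
    ∀ (A : Fin M → ℕ) (S : Fin M → Set ℕ), (∀ j, S j ⊆ Set.Ioc (A j) (A j + X)) →
    (∀ j, ∀ n ∈ S j, ∀ q : ℕ, q.Prime → R j q n → (X : ℝ) ^ κ < q) →
    (∀ j, δ * (X * prR (nuR (R j)) X) ≤ ((S j).ncard : ℝ)) →
    c * (D : ℝ) ^ m ≤ ({d : Fin m → ℕ | (∀ i, 1 ≤ d i ∧ d i ≤ D) ∧ GoodR R c k X S d}.ncard : ℝ) := by
  classical
  obtain ⟨c, hc, B, X₁, h1⟩ := Pool.Agent.X26.MC.polyM M m k r hκ hκ1 hδ
  refine ⟨c, hc, B, X₁, ?_⟩
  intro X D hX1 hBD hDX F R hdeg hNF hR A S hS hSR hSc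
  have hfin : ∀ j, (S j).Finite := fun j => (Set.finite_Ioc (A j) (A j + X)).subset (hS j)
  obtain ⟨T, hT⟩ : ∃ T : Fin M → Finset ℕ, T = fun j => (hfin j).toFinset := ⟨_, rfl⟩
  have hmem : ∀ j n, n ∈ T j ↔ n ∈ S j := fun j n => by rw [hT]; exact Set.Finite.mem_toFinset _
  have hcard : ∀ j, (T j).card = (S j).ncard := by
    intro j
    rw [← Set.ncard_coe_finset]
    congr 1
    ext n
    exact hmem j n
  obtain ⟨G, g1, g2, g3⟩ := h1 X D hX1 hBD hDX A (fun j => ∏ i, F j i) hdeg hNF T (fun j n hn => by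
      have := hS j ((hmem j n).1 hn)
      rw [Finset.mem_Ioc]
      exact this) (fun j n hn q hq hqX hd => by
      have h2 := hS j ((hmem j n).1 hn)
      rw [Polynomial.eval_prod, (Nat.prime_iff_prime_int.1 hq).dvd_finsetProd_iff] at hd
      obtain ⟨i, _, hi⟩ := hd
      have h3 := hSR j n ((hmem j n).1 hn) q hq ((hR j q n (by have := h2.1; omega)).2 ⟨i, hi⟩)
      linarith) (fun j => by
      rw [hcard]
      refine le_trans (le_of_eq ?_) (hSc j)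
      rw [PX_prR (fun q => (Zf (∏ i, F j i) q).card) (nuR (R j)) (fun q hq => Zf_nuR (F j) (R j) (hR j) hq) X])
  refine g2.trans ?_
  have hboxfin : {d : Fin m → ℕ | (∀ i, 1 ≤ d i ∧ d i ≤ D) ∧ GoodR R c k X S d}.Finite := by
    refine ((Fintype.piFinset (fun _ : Fin m => Finset.Icc 1 D)).finite_toSet).subset ?_
    rintro d ⟨hd, _⟩
    exact Finset.mem_coe.2 (mem_box.2 hd)
  rw [← Set.ncard_coe_finset]
  apply Nat.cast_le.2
  apply Set.ncard_le_ncard _ hboxfin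
  intro d hd
  have hd' := Finset.mem_coe.1 hd
  refine ⟨mem_box.1 (g1 hd'), fun P hP h0 => ?_⟩
  obtain ⟨k1, k2⟩ := g3 d hd' P hP h0
  refine ⟨?_, fun j => ?_⟩
  · unfold pat at k1
    exact Finset.card_image_iff.1 k1
  · obtain ⟨k3, k4⟩ := k2 j
    have hom := fun (q : ℕ) (hq : q.Prime) => om_omR (F j) (R j) (hR j) d P hq
    refine ⟨fun q hq => ?_, ?_⟩
    · rw [← hom q hq]
      exact k3 q hq
    · rw [PX_prR _ _ hom] at k4
      refine k4.trans (le_of_eq ?_)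
      unfold cnR
      rw [← Set.ncard_coe_finset]
      congr 2
      ext n
      rw [Finset.mem_coe, Finset.mem_filter, Set.mem_ofPred_eq, hmem]
      unfold dt
      simp only [hmem]

/-- **Almost prime values**, uniformly. -/
theorem uni_low (r : ℕ) (h : ℝ) : ∃ ρ : ℕ, 1 ≤ ρ ∧ ∃ X₀ : ℕ, ∀ X A : ℕ, X₀ ≤ X →
    ∀ (F : Fin g → ℤ[X]) (R : ℕ → ℕ → Prop), (∏ i, F i).natDegree ≤ r → NF (∏ i, F i) →
    (∀ q n : ℕ, 1 ≤ n → (R q n ↔ ∃ i, (q : ℤ) ∣ (F i).eval (n : ℤ))) →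
    (∀ n : ℕ, A < n → n ≤ A + X → |(((∏ i, F i).eval (n : ℤ) : ℤ) : ℝ)| ≤ (X : ℝ) ^ h) →
    1 / 2 * (X * prR (nuR R) X) ≤
      ({n : ℕ | n ∈ Set.Ioc A (A + X) ∧ ((∏ i, F i).eval (n : ℤ)).natAbs.primeFactorsList.length ≤ ρ ∧
        ((∏ i, F i).eval (n : ℤ)) ≠ 0 ∧
        ∀ q : ℕ, q.Prime → (q : ℤ) ∣ (∏ i, F i).eval (n : ℤ) → (X : ℝ) ^ (1 / (ρ : ℝ)) < q}.ncard : ℝ) := by
  classical
  obtain ⟨ρ, hρ, X₀, h1⟩ := Pool.Agent.X26.MC.lowP r h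
  refine ⟨ρ, hρ, X₀, fun X A hX F R hdeg hNF hR hb => ?_⟩
  have h2 := h1 X A hX (∏ i, F i) hdeg hNF (fun n hn => hb n (mem_Ioc.1 hn).1 (mem_Ioc.1 hn).2)
  rw [PX_prR (fun q => (Zf (∏ i, F i) q).card) (nuR R) (fun q hq => Zf_nuR F R hR hq) X] at h2
  refine h2.trans (Nat.cast_le.2 ?_)
  rw [← Set.ncard_coe_finset]
  apply Set.ncard_le_ncard _ ((Set.finite_Ioc A (A + X)).subset (fun n hn => hn.1))
  intro n hn
  have h3 := Finset.mem_coe.1 hn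
  unfold Pool.Agent.X26.MC.AV at h3
  rw [mem_filter] at h3
  obtain ⟨h4, h5, h6, h7⟩ := h3
  refine ⟨?_, h6, Int.natAbs_ne_zero.1 h5, fun q hq hd => h7 q hq (Int.natCast_dvd.1 hd)⟩
  have := mem_Ioc.1 h4
  exact ⟨this.1, this.2⟩

end Pool.Agent.Helper269
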